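import Mathlib

/-!
Circular orders of `1, …, n` whose numbers `2ab + 1` avoid given primes (for MP_1fcb73_nt).
-/

set_option autoImplicit false

namespace Pool.Agent.H34.CP

/-- A function sorts `1, …, n`: if neighbours in this order are related, and the last element is
related to the first one, then there is a circular permutation with neighbours related. -/
theorem order_cycle (n : ℕ) (hn : 1 ≤ n) (f : ℕ → ℕ)
    (hf : ∀ x ∈ Finset.Icc 1 n, ∀ y ∈ Finset.Icc 1 n, f x = f y → x = y) (A : ℕ → ℕ → Prop)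
    (h1 : ∀ x ∈ Finset.Icc 1 n, ∀ y ∈ Finset.Icc 1 n, f x < f y →
      (∀ z ∈ Finset.Icc 1 n, ¬ (f x < f z ∧ f z < f y)) → A x y)
    (h2 : ∀ x ∈ Finset.Icc 1 n, (∀ z ∈ Finset.Icc 1 n, f z ≤ f x) →
      ∀ y ∈ Finset.Icc 1 n, (∀ z ∈ Finset.Icc 1 n, f y ≤ f z) → A x y) :
    ∃ π : ℕ → ℕ, Set.BijOn π (Set.Icc 1 n) (Set.Icc 1 n) ∧ π (n + 1) = π 1 ∧
      ∀ i ∈ Set.Icc 1 n, A (π i) (π (i + 1)) := by
  classical
  have hcard : ((Finset.Icc 1 n).image f).card = n := by
    rw [Finset.card_image_of_injOn]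
    · simp
    · intro x hx y hy h
      exact hf x (by simpa using hx) y (by simpa using hy) h
  set F : Finset ℕ := (Finset.Icc 1 n).image f with hF
  let e := F.orderEmbOfFin hcard
  have hmem : ∀ i : Fin n, ∃ x ∈ Finset.Icc 1 n, f x = e i := fun i => by
    have h : e i ∈ F := Finset.orderEmbOfFin_mem F hcard i
    exact Finset.mem_image.1 h
  choose g hg hfg using hmem
  have hsurj : ∀ z ∈ Finset.Icc 1 n, ∃ j, e j = f z := by
    intro z hz
    have : f z ∈ Set.range (F.orderEmbOfFin hcard) := by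
      rw [Finset.range_orderEmbOfFin]
      exact Finset.mem_coe.2 (Finset.mem_image_of_mem f hz)
    exact this
  have hlt : ∀ i, (i - 1) % n < n := fun i => Nat.mod_lt _ hn
  let π : ℕ → ℕ := fun i => g ⟨(i - 1) % n, hlt i⟩
  have hπ : ∀ i (hi : i - 1 < n), π i = g ⟨i - 1, hi⟩ := by
    intro i hi
    have : (⟨(i - 1) % n, hlt i⟩ : Fin n) = ⟨i - 1, hi⟩ := by
      apply Fin.ext
      exact Nat.mod_eq_of_lt hi
    show g _ = g _
    rw [this]
  have hper : π (n + 1) = π 1 := by
    have : (⟨(n + 1 - 1) % n, hlt (n + 1)⟩ : Fin n) = ⟨(1 - 1) % n, hlt 1⟩ := by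
      apply Fin.ext
      simp
    show g _ = g _
    rw [this]
  refine ⟨π, ⟨?_, ?_, ?_⟩, hper, ?_⟩
  · intro i hi
    have := hg ⟨(i - 1) % n, hlt i⟩
    simpa using this
  · intro i hi j hj h
    have hi' : i - 1 < n := by have := hi.2; have := hi.1; omega
    have hj' : j - 1 < n := by have := hj.2; have := hj.1; omega
    rw [hπ i hi', hπ j hj'] at h
    have h3 : e ⟨i - 1, hi'⟩ = e ⟨j - 1, hj'⟩ := by rw [← hfg, ← hfg, h]
    have h4 := e.injective h3
    have h5 : i - 1 = j - 1 := by simpa using congrArg Fin.val h4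
    have := hi.1; have := hj.1; omega
  · intro z hz
    obtain ⟨j, hj⟩ := hsurj z (by simpa using hz)
    refine ⟨j.1 + 1, ⟨by omega, by have := j.2; omega⟩, ?_⟩
    rw [hπ (j.1 + 1) (by simp)]
    apply hf _ (hg _) _ (by simpa using hz)
    rw [hfg, ← hj]
    rfl
  · intro i hi
    have hi1 := hi.1
    have hi2 := hi.2
    have hi' : i - 1 < n := by omega
    by_cases hin : i < n
    · have hi'' : i + 1 - 1 < n := by omega
      rw [hπ i hi', hπ (i + 1) hi'']
      apply h1 _ (hg _) _ (hg _)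
      · rw [hfg, hfg]
        apply e.strictMono
        show i - 1 < i + 1 - 1
        omega
      · intro z hz hbad
        obtain ⟨j, hj⟩ := hsurj z hz
        rw [hfg, hfg, ← hj] at hbad
        have ha := e.lt_iff_lt.1 hbad.1
        have hb := e.lt_iff_lt.1 hbad.2
        have ha' : i - 1 < j.1 := ha
        have hb' : j.1 < i + 1 - 1 := hb
        omega
    · have hieq : i = n := by omega
      subst hieq
      rw [hper, hπ i hi', hπ 1 (by omega)]
      apply h2 _ (hg _) _ _ (hg _)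
      · intro z hz
        obtain ⟨j, hj⟩ := hsurj z hz
        rw [hfg, ← hj]
        apply e.monotone
        show 1 - 1 ≤ j.1
        omega
      · intro z hz
        obtain ⟨j, hj⟩ := hsurj z hz
        rw [hfg, ← hj]
        apply e.monotone
        show j.1 ≤ i - 1
        have := j.2
        omega

/-- the residue paired with `a` -/
theorem exists_partner (S : Finset ℕ) (hS : ∀ p ∈ S, p.Prime) (a : ℕ) :
    ∃ t : ℕ, t < ∏ p ∈ S, p ∧ ∀ p ∈ S, ((t : ℕ) : ZMod p) = -((a : ZMod p))⁻¹ := by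
  classical
  set M := ∏ p ∈ S, p with hM
  have hMpos : 0 < M := Finset.prod_pos fun p hp => (hS p hp).pos
  set P := ∏ p ∈ S, (p - 1) with hP
  have hPpos : 0 < P := Finset.prod_pos fun p hp => by
    have := (hS p hp).two_le
    omega
  refine ⟨(a ^ (2 * P - 1) * (M - 1)) % M, Nat.mod_lt _ hMpos, ?_⟩
  intro p hp
  have : Fact p.Prime := ⟨hS p hp⟩
  have hpM : p ∣ M := Finset.dvd_prod_of_mem _ hp
  have h1 : (((a ^ (2 * P - 1) * (M - 1)) % M : ℕ) : ZMod p)
      = ((a ^ (2 * P - 1) * (M - 1) : ℕ) : ZMod p) :=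
    (ZMod.natCast_eq_natCast_iff _ _ _).2 ((Nat.mod_modEq _ _).of_dvd hpM)
  have h2 : ((M - 1 : ℕ) : ZMod p) = -1 := by
    have h3 : ((M - 1 + 1 : ℕ) : ZMod p) = 0 := by
      rw [Nat.sub_add_cancel hMpos]
      exact (ZMod.natCast_eq_zero_iff _ _).2 hpM
    push_cast at h3
    exact eq_neg_of_add_eq_zero_left h3
  have h4 : ((a : ZMod p)) ^ (2 * P - 1) = ((a : ZMod p))⁻¹ := by
    by_cases ha : (a : ZMod p) = 0
    · rw [ha, zero_pow (by omega), inv_zero]
    · apply eq_inv_of_mul_eq_one_left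
      rw [← pow_succ, show 2 * P - 1 + 1 = 2 * P by omega]
      have hdvd : p - 1 ∣ 2 * P := Dvd.dvd.mul_left (Finset.dvd_prod_of_mem (fun p => p - 1) hp) 2
      obtain ⟨c, hc⟩ := hdvd
      rw [hc, pow_mul, ZMod.pow_card_sub_one_eq_one ha, one_pow]
  rw [h1]
  push_cast
  rw [h4, h2]
  ring

/-- numbers below the product of the primes are determined by their residues -/
theorem eq_of_casts (S : Finset ℕ) (hS : ∀ p ∈ S, p.Prime) (u v : ℕ) (hu : u < ∏ p ∈ S, p)
    (hv : v < ∏ p ∈ S, p) (h : ∀ p ∈ S, ((u : ℕ) : ZMod p) = (v : ZMod p)) : u = v := by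
  have hd : (∏ p ∈ S, p) ∣ ((v : ℤ) - u).natAbs := by
    apply Finset.prod_primes_dvd
    · exact fun p hp => (hS p hp).prime
    · intro p hp
      rw [← Int.natCast_dvd]
      exact Nat.modEq_iff_dvd.1 ((ZMod.natCast_eq_natCast_iff _ _ _).1 (h p hp))
  have h1 : u ≡ v [MOD ∏ p ∈ S, p] := Nat.modEq_iff_dvd.2 (Int.natCast_dvd.2 hd)
  exact h1.eq_of_lt_of_lt hu hv

/-- the main construction -/
theorem main (S : Finset ℕ) (hS : ∀ p ∈ S, p.Prime) (n : ℕ) (hn : 1 ≤ n)
    (hnM : (∏ p ∈ S, p) * ((∏ p ∈ S, p) - 1) ≤ n) :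
    ∃ π : ℕ → ℕ, Set.BijOn π (Set.Icc 1 n) (Set.Icc 1 n) ∧ π (n + 1) = π 1 ∧
      ∀ i ∈ Set.Icc 1 n, ∀ p ∈ S, ¬ p ∣ 2 * π i * π (i + 1) + 1 := by
  classical
  have hex := exists_partner S hS
  have hcast := eq_of_casts S hS
  have hMpos : 0 < ∏ p ∈ S, p := Finset.prod_pos fun p hp => (hS p hp).pos
  have hpM : ∀ p ∈ S, p ∣ ∏ p ∈ S, p := fun p hp => Finset.dvd_prod_of_mem _ hp
  choose τ hτlt hτ using hex
  generalize (∏ p ∈ S, p) = M at *
  -- the involution
  have hinv : ∀ r, r < M → τ (τ r) = r := by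
    intro r hr
    apply hcast _ _ (hτlt _) hr
    intro p hp
    have : Fact p.Prime := ⟨hS p hp⟩
    rw [hτ _ p hp, hτ _ p hp, inv_neg, inv_inv, neg_neg]
  have hτ0 : τ 0 = 0 := by
    apply hcast _ _ (hτlt _) hMpos
    intro p hp
    have : Fact p.Prime := ⟨hS p hp⟩
    rw [hτ _ p hp]
    simp
  have hτne : ∀ r, r < M → r ≠ 0 → τ r ≠ 0 := by
    intro r hr h0 h
    have := hinv r hr
    rw [h, hτ0] at this
    exact h0 this.symm
  -- adjacency
  have hmodcast : ∀ x, ∀ p ∈ S, ((x % M : ℕ) : ZMod p) = (x : ZMod p) := fun x p hp =>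
    (ZMod.natCast_eq_natCast_iff _ _ _).2 ((Nat.mod_modEq _ _).of_dvd (hpM p hp))
  have hadj : ∀ x y, y % M = τ (x % M) → ∀ p ∈ S, ¬ p ∣ 2 * x * y + 1 := by
    intro x y hxy p hp hdvd
    have : Fact p.Prime := ⟨hS p hp⟩
    have h1 : ((2 * x * y + 1 : ℕ) : ZMod p) = 0 := (ZMod.natCast_eq_zero_iff _ _).2 hdvd
    have h2 : (y : ZMod p) = -((x : ZMod p))⁻¹ := by
      rw [← hmodcast y p hp, hxy, hτ _ p hp, hmodcast x p hp]
    push_cast at h1
    rw [h2] at h1
    by_cases hx : (x : ZMod p) = 0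
    · rw [hx] at h1
      simp at h1
    · have h3 : (2 : ZMod p) * x * -((x : ZMod p))⁻¹ + 1 = -1 := by
        field_simp
        ring
      rw [h3] at h1
      exact one_ne_zero (neg_eq_zero.1 h1)
  have hjoint : ∀ x y, (M ∣ x ∨ M ∣ y) → ∀ p ∈ S, ¬ p ∣ 2 * x * y + 1 := by
    intro x y hxy p hp hdvd
    have h1 : p ∣ 2 * x * y := by
      rcases hxy with h | h
      · exact Dvd.dvd.mul_right (Dvd.dvd.mul_left ((hpM p hp).trans h) 2) y
      · exact Dvd.dvd.mul_left ((hpM p hp).trans h) _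
    have h2 : p ∣ 1 := (Nat.dvd_add_right h1).1 hdvd
    exact (hS p hp).one_lt.ne' (Nat.dvd_one.1 h2)
  -- the sorting key
  let s : ℕ → ℕ := fun x => min (x % M) (τ (x % M))
  let f : ℕ → ℕ := fun x => if M ∣ x then (x / M) * (n + 2) + (n + 1) else s x * (n + 2) + x
  have hfj : ∀ x, M ∣ x → f x = (x / M) * (n + 2) + (n + 1) := fun x hx => if_pos hx
  have hfn : ∀ x, ¬ M ∣ x → f x = s x * (n + 2) + x := fun x hx => if_neg hx
  have hlt_of : ∀ a b u v : ℕ, u ≤ n + 1 → a < b → a * (n + 2) + u < b * (n + 2) + v := by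
    intro a b u v hu hab
    have : (a + 1) * (n + 2) ≤ b * (n + 2) := Nat.mul_le_mul_right _ hab
    nlinarith
  have hkey : ∀ a b u v : ℕ, u ≤ n + 1 → v ≤ n + 1 → a * (n + 2) + u = b * (n + 2) + v →
      a = b ∧ u = v := by
    intro a b u v hu hv h
    rcases lt_trichotomy a b with hab | hab | hab
    · exact absurd h (hlt_of a b u v hu hab).ne
    · subst hab
      exact ⟨rfl, by omega⟩
    · exact absurd h (hlt_of b a v u hv hab).ne'
  -- joints for the blocks
  have hs : ∀ x, ¬ M ∣ x → 1 ≤ s x ∧ s x < M := by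
    intro x hx
    have h0 : x % M ≠ 0 := fun h => hx (Nat.dvd_of_mod_eq_zero h)
    have h1 : x % M < M := Nat.mod_lt _ hMpos
    have h2 := hτne _ h1 h0
    constructor
    · exact le_min (by omega) (by omega)
    · exact lt_of_le_of_lt (min_le_left _ _) h1
  have hjn : ∀ x, ¬ M ∣ x → s x * M ∈ Finset.Icc 1 n ∧
      f (s x * M) = s x * (n + 2) + (n + 1) := by
    intro x hx
    obtain ⟨h1, h2⟩ := hs x hx
    refine ⟨Finset.mem_Icc.2 ⟨?_, ?_⟩, ?_⟩
    · exact Nat.mul_pos h1 hMpos
    · refine le_trans ?_ hnM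
      rw [mul_comm]
      exact Nat.mul_le_mul_left _ (by omega)
    · rw [hfj _ (Dvd.intro_left _ rfl), Nat.mul_div_cancel _ hMpos]
  refine order_cycle n hn f ?_ (fun x y => ∀ p ∈ S, ¬ p ∣ 2 * x * y + 1) ?_ ?_
  · intro x hx y hy h
    rw [Finset.mem_Icc] at hx hy
    by_cases hxM : M ∣ x <;> by_cases hyM : M ∣ y
    · rw [hfj x hxM, hfj y hyM] at h
      have h1 := (hkey _ _ _ _ le_rfl le_rfl h).1
      rw [← Nat.div_mul_cancel hxM, ← Nat.div_mul_cancel hyM, h1]
    · rw [hfj x hxM, hfn y hyM] at h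
      have h1 := (hkey _ _ _ _ le_rfl (by omega) h).2
      omega
    · rw [hfn x hxM, hfj y hyM] at h
      have h1 := (hkey _ _ _ _ (by omega) le_rfl h).2
      omega
    · rw [hfn x hxM, hfn y hyM] at h
      exact (hkey _ _ _ _ (by omega) (by omega) h).2
  · intro x hx y hy hxy hno
    rw [Finset.mem_Icc] at hx hy
    by_cases hxM : M ∣ x
    · exact hjoint x y (Or.inl hxM)
    by_cases hyM : M ∣ y
    · exact hjoint x y (Or.inr hyM)
    rw [hfn x hxM, hfn y hyM] at hxy
    simp only [hfn x hxM, hfn y hyM] at hno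
    -- same block
    have hsame : s x = s y := by
      rcases lt_trichotomy (s x) (s y) with h | h | h
      · exfalso
        obtain ⟨h1, h2⟩ := hjn x hxM
        apply hno _ h1
        rw [h2]
        constructor
        · omega
        · exact hlt_of _ _ _ _ le_rfl h
      · exact h
      · exfalso
        have := hlt_of (s y) (s x) y x (by omega) h
        omega
    have hxlty : x < y := by
      rw [hsame] at hxy
      omega
    have hrx : x % M < M := Nat.mod_lt _ hMpos
    have hry : y % M < M := Nat.mod_lt _ hMpos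
    by_cases hpart : y % M = τ (x % M)
    · exact hadj x y hpart
    exfalso
    -- the residues are equal
    have hreq : y % M = x % M := by
      have h1 : min (x % M) (τ (x % M)) = min (y % M) (τ (y % M)) := hsame
      rcases min_choice (x % M) (τ (x % M)) with h2 | h2 <;>
        rcases min_choice (y % M) (τ (y % M)) with h3 | h3
      · rw [h2, h3] at h1
        exact h1.symm
      · rw [h2, h3] at h1
        exfalso
        apply hpart
        rw [h1, hinv _ hry]
      · rw [h2, h3] at h1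
        exact absurd h1.symm hpart
      · rw [h2, h3] at h1
        rw [← hinv _ hry, ← h1, hinv _ hrx]
    have hτx : τ (x % M) ≠ x % M := fun h => hpart (by rw [h, hreq])
    have hdx := Nat.div_add_mod x M
    have hdy := Nat.div_add_mod y M
    have hqlt : x / M < y / M := by
      by_contra hcon
      have : M * (y / M) ≤ M * (x / M) := Nat.mul_le_mul_left _ (by omega)
      omega
    have hM1 : M * (x / M) + M ≤ M * (y / M) := by
      calc M * (x / M) + M = M * (x / M + 1) := by ring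
        _ ≤ M * (y / M) := Nat.mul_le_mul_left _ hqlt
    have hτxlt := hτlt (x % M)
    have hx0 : x % M ≠ 0 := fun h => hxM (Nat.dvd_of_mod_eq_zero h)
    have hτx0 := hτne _ hrx hx0
    -- a general fact on an element with the paired residue
    have hz : ∀ q, (M * q + τ (x % M)) % M = τ (x % M) := by
      intro q
      rw [Nat.mul_add_mod, Nat.mod_eq_of_lt hτxlt]
    have hzM : ∀ q, ¬ M ∣ M * q + τ (x % M) := by
      intro q hq
      have := Nat.mod_eq_zero_of_dvd hq
      rw [hz q] at this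
      exact hτx0 this
    have hzs : ∀ q, s (M * q + τ (x % M)) = s x := by
      intro q
      show min ((M * q + τ (x % M)) % M) (τ ((M * q + τ (x % M)) % M)) =
        min (x % M) (τ (x % M))
      rw [hz q, hinv _ hrx, min_comm]
    rcases lt_or_gt_of_ne hτx with hlt | hgt
    · -- the partner residue is smaller: use the next row
      have hzmem : M * (x / M + 1) + τ (x % M) ∈ Finset.Icc 1 n := by
        rw [Finset.mem_Icc]
        have : M * (x / M + 1) = M * (x / M) + M := by ring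
        constructor <;> omega
      apply hno _ hzmem
      rw [hfn _ (hzM _), hzs, ← hsame]
      have : M * (x / M + 1) = M * (x / M) + M := by ring
      constructor <;> omega
    · have hzmem : M * (x / M) + τ (x % M) ∈ Finset.Icc 1 n := by
        rw [Finset.mem_Icc]
        constructor <;> omega
      apply hno _ hzmem
      rw [hfn _ (hzM _), hzs, ← hsame]
      constructor <;> omega
  · intro x hx hmax y _ _
    by_cases hxM : M ∣ x
    · exact hjoint x y (Or.inl hxM)
    · exfalso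
      rw [Finset.mem_Icc] at hx
      obtain ⟨h1, h2⟩ := hjn x hxM
      have h3 := hmax _ h1
      rw [h2, hfn x hxM] at h3
      omega

/-- all primes `p` with `16 ^ p ≤ n` can be avoided -/
theorem main_log (n : ℕ) (hn : 1 ≤ n) :
    ∃ π : ℕ → ℕ, Set.BijOn π (Set.Icc 1 n) (Set.Icc 1 n) ∧ π (n + 1) = π 1 ∧
      ∀ i ∈ Set.Icc 1 n, ∀ p : ℕ, p.Prime → p ∣ 2 * π i * π (i + 1) + 1 → n < 16 ^ p := by
  set z := Nat.log 16 n with hz
  have hz1 : 16 ^ z ≤ n := Nat.pow_log_le_self 16 (by omega)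
  have hprim : primorial z ≤ 4 ^ z := primorial_le_four_pow z
  have hprod : (∏ p ∈ (Finset.range (z + 1)).filter Nat.Prime, p) ≤ 4 ^ z := hprim
  have hle : (∏ p ∈ (Finset.range (z + 1)).filter Nat.Prime, p) *
      ((∏ p ∈ (Finset.range (z + 1)).filter Nat.Prime, p) - 1) ≤ n := by
    calc _ ≤ 4 ^ z * 4 ^ z := Nat.mul_le_mul hprod (le_trans (Nat.sub_le _ _) hprod)
      _ = 16 ^ z := by rw [← mul_pow]; norm_num
      _ ≤ n := hz1
  obtain ⟨π, h1, h2, h3⟩ := main ((Finset.range (z + 1)).filter Nat.Prime)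
    (fun p hp => (Finset.mem_filter.1 hp).2) n hn hle
  refine ⟨π, h1, h2, fun i hi p hp hdvd => ?_⟩
  by_contra hcon
  have h4 : p ≤ z := Nat.le_log_of_pow_le (by norm_num) (by omega)
  exact h3 i hi p (Finset.mem_filter.2 ⟨Finset.mem_range.2 (by omega), hp⟩) hdvd

/-- from functions on `1, …, n` to permutations of `Fin n` -/
theorem to_perm (n : ℕ) (hn : 1 ≤ n) (A : ℕ → ℕ → Prop)
    (h : ∃ π : ℕ → ℕ, Set.BijOn π (Set.Icc 1 n) (Set.Icc 1 n) ∧ π (n + 1) = π 1 ∧
      ∀ i ∈ Set.Icc 1 n, A (π i) (π (i + 1))) :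
    ∃ π : Equiv.Perm (Fin n), ∀ i : Fin n, A ((π i).val + 1) ((π (finRotate n i)).val + 1) := by
  obtain ⟨π, hb, hper, hA⟩ := h
  have hmem : ∀ i : Fin n, i.val + 1 ∈ Set.Icc 1 n := fun i => ⟨by omega, by have := i.2; omega⟩
  have hmaps : ∀ i : Fin n, π (i.val + 1) ∈ Set.Icc 1 n := fun i => hb.mapsTo (hmem i)
  let σ : Fin n → Fin n := fun i => ⟨π (i.val + 1) - 1, by
    have h1 := (hmaps i).1
    have h2 := (hmaps i).2
    omega⟩
  have hσ : ∀ i, (σ i).val + 1 = π (i.val + 1) := by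
    intro i
    have h1 := (hmaps i).1
    show π (i.val + 1) - 1 + 1 = _
    omega
  have hinj : Function.Injective σ := by
    intro i j hij
    have h1 : π (i.val + 1) = π (j.val + 1) := by rw [← hσ, ← hσ, hij]
    have h2 := hb.injOn (hmem i) (hmem j) h1
    exact Fin.ext (by omega)
  refine ⟨Equiv.ofBijective σ (Finite.injective_iff_bijective.1 hinj), fun i => ?_⟩
  have hval : ∀ j, ((Equiv.ofBijective σ (Finite.injective_iff_bijective.1 hinj)) j).val + 1 =
      π (j.val + 1) := hσ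
  rw [hval, hval]
  obtain ⟨m, rfl⟩ : ∃ m, n = m + 1 := ⟨n - 1, by omega⟩
  rcases Nat.lt_or_ge i.val m with hi | hi
  · rw [show (finRotate (m + 1) i).val = i.val + 1 from by
      rw [finRotate_succ_apply, Fin.val_add_one_of_lt' (by omega)]]
    exact hA _ (hmem i)
  · have hlast : i = Fin.last m := Fin.ext (by have := i.2; simp only [Fin.val_last]; omega)
    rw [hlast, finRotate_last]
    have h3 := hA (m + 1) ⟨by omega, le_rfl⟩
    rw [hper] at h3
    exact h3

end Pool.Agent.H34.CP
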