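import Pool.Agent.H34.CP.Core

/-!
Circular permutations and insertion of a new largest element.
-/

set_option autoImplicit false

namespace Pool.Agent.H34.CP

/-- Some permutation of `1, …, n`, read cyclically, has all its `n` numbers `2ab + 1`
(`a`, `b` neighbours) with the property `P`. Here `π i + 1` is the entry at place `i`, and
`finRotate n i` is the next place (the last place is followed by the first one). -/
def HasCircular (n : ℕ) (P : ℕ → Prop) : Prop :=
  ∃ π : Equiv.Perm (Fin n), ∀ i : Fin n,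
    P (2 * ((π i).val + 1) * ((π (finRotate n i)).val + 1) + 1)

/-- the same with functions on `1, …, n` -/
theorem hasCircular_of (n : ℕ) (hn : 1 ≤ n) (P : ℕ → Prop)
    (h : ∃ π : ℕ → ℕ, Set.BijOn π (Set.Icc 1 n) (Set.Icc 1 n) ∧ π (n + 1) = π 1 ∧
      ∀ i ∈ Set.Icc 1 n, P (2 * π i * π (i + 1) + 1)) : HasCircular n P :=
  to_perm n hn (fun a b => P (2 * a * b + 1)) h

theorem of_hasCircular (n : ℕ) (hn : 1 ≤ n) (P : ℕ → Prop) (h : HasCircular n P) :
    ∃ π : ℕ → ℕ, Set.BijOn π (Set.Icc 1 n) (Set.Icc 1 n) ∧ π (n + 1) = π 1 ∧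
      ∀ i ∈ Set.Icc 1 n, P (2 * π i * π (i + 1) + 1) := by
  obtain ⟨σ, hσ⟩ := h
  have hlt : ∀ i, (i - 1) % n < n := fun i => Nat.mod_lt _ hn
  let π : ℕ → ℕ := fun i => (σ ⟨(i - 1) % n, hlt i⟩).val + 1
  have hπ : ∀ i (hi : i - 1 < n), π i = (σ ⟨i - 1, hi⟩).val + 1 := by
    intro i hi
    have : (⟨(i - 1) % n, hlt i⟩ : Fin n) = ⟨i - 1, hi⟩ := by
      apply Fin.ext
      exact Nat.mod_eq_of_lt hi
    show (σ _).val + 1 = (σ _).val + 1
    rw [this]
  have hper : π (n + 1) = π 1 := by
    have : (⟨(n + 1 - 1) % n, hlt (n + 1)⟩ : Fin n) = ⟨(1 - 1) % n, hlt 1⟩ := by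
      apply Fin.ext
      simp
    show (σ _).val + 1 = (σ _).val + 1
    rw [this]
  refine ⟨π, ⟨?_, ?_, ?_⟩, hper, ?_⟩
  · intro i hi
    have := (σ ⟨(i - 1) % n, hlt i⟩).2
    exact ⟨by show 1 ≤ (σ _).val + 1; omega, by show (σ _).val + 1 ≤ n; omega⟩
  · intro i hi j hj h
    have hi' : i - 1 < n := by have := hi.2; have := hi.1; omega
    have hj' : j - 1 < n := by have := hj.2; have := hj.1; omega
    rw [hπ i hi', hπ j hj'] at h
    have h4 := σ.injective (Fin.ext (Nat.succ_injective h))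
    have h5 : i - 1 = j - 1 := by simpa using congrArg Fin.val h4
    have := hi.1; have := hj.1; omega
  · intro z hz
    have hz1 := hz.1
    have hz2 := hz.2
    let j := σ.symm ⟨z - 1, by omega⟩
    refine ⟨j.1 + 1, ⟨by omega, by have := j.2; omega⟩, ?_⟩
    rw [hπ (j.1 + 1) (by simp)]
    have : (⟨j.1 + 1 - 1, by simp⟩ : Fin n) = j := by apply Fin.ext; simp
    rw [this]
    show (σ (σ.symm _)).val + 1 = z
    rw [Equiv.apply_symm_apply]
    show z - 1 + 1 = z
    omega
  · intro i hi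
    have hi1 := hi.1
    have hi2 := hi.2
    have hi' : i - 1 < n := by omega
    have h0 := hσ ⟨i - 1, hi'⟩
    by_cases hin : i < n
    · have hi'' : i + 1 - 1 < n := by omega
      rw [hπ i hi', hπ (i + 1) hi'']
      obtain ⟨m, rfl⟩ : ∃ m, n = m + 1 := ⟨n - 1, by omega⟩
      have : finRotate (m + 1) ⟨i - 1, hi'⟩ = ⟨i + 1 - 1, hi''⟩ := by
        rw [finRotate_of_lt (show i - 1 < m by omega)]
        apply Fin.ext
        show i - 1 + 1 = i + 1 - 1
        omega
      rw [this] at h0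
      exact h0
    · have hieq : i = n := by omega
      subst hieq
      rw [hper, hπ i hi', hπ 1 (by omega)]
      obtain ⟨m, rfl⟩ : ∃ m, i = m + 1 := ⟨i - 1, by omega⟩
      have : finRotate (m + 1) ⟨m + 1 - 1, hi'⟩ = ⟨1 - 1, by omega⟩ := by
        have h1 : (⟨m + 1 - 1, hi'⟩ : Fin (m + 1)) = Fin.last m := Fin.ext (by simp)
        rw [h1, finRotate_last]
        rfl
      rw [this] at h0
      exact h0

theorem HasCircular.mono {n : ℕ} {P Q : ℕ → Prop} (h : HasCircular n P)
    (hPQ : ∀ m, P m → Q m) : HasCircular n Q := by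
  obtain ⟨σ, hσ⟩ := h
  exact ⟨σ, fun i => hPQ _ (hσ i)⟩

/-- the new largest element `n + 1` is put between two neighbours which both fit to it -/
theorem insert_step (n : ℕ) (hn : 1 ≤ n) (P : ℕ → Prop) [DecidablePred P] (h : HasCircular n P)
    (hg : n < 2 * ((Finset.Icc 1 n).filter (fun k => P (2 * k * (n + 1) + 1))).card) :
    HasCircular (n + 1) P := by
  obtain ⟨π, hb, hper, hP⟩ := of_hasCircular n hn P h
  -- good places
  set G := (Finset.Icc 1 n).filter (fun j => P (2 * π j * (n + 1) + 1)) with hG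
  have hGcard : G.card = ((Finset.Icc 1 n).filter (fun k => P (2 * k * (n + 1) + 1))).card := by
    apply Finset.card_bij (fun j _ => π j)
    · intro j hj
      rw [hG, Finset.mem_filter] at hj
      rw [Finset.mem_filter]
      exact ⟨by have := hb.mapsTo (show j ∈ Set.Icc 1 n by simpa using hj.1); simpa using this,
        hj.2⟩
    · intro a ha b hb' hab
      rw [hG, Finset.mem_filter] at ha hb'
      exact hb.injOn (by simpa using ha.1) (by simpa using hb'.1) hab
    · intro k hk
      rw [Finset.mem_filter] at hk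
      obtain ⟨j, hj, rfl⟩ := hb.surjOn (show k ∈ Set.Icc 1 n by simpa using hk.1)
      refine ⟨j, ?_, rfl⟩
      rw [hG, Finset.mem_filter]
      exact ⟨by simpa using hj, hk.2⟩
  rw [← hGcard] at hg
  -- two neighbouring good places
  let s : ℕ → ℕ := fun j => if j = n then 1 else j + 1
  have hs : ∀ j ∈ Finset.Icc 1 n, s j ∈ Finset.Icc 1 n := by
    intro j hj
    rw [Finset.mem_Icc] at hj
    show (if j = n then 1 else j + 1) ∈ _
    split_ifs with h1
    · exact Finset.mem_Icc.2 ⟨le_rfl, hn⟩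
    · exact Finset.mem_Icc.2 ⟨by omega, by omega⟩
  have hsinj : ∀ a ∈ Finset.Icc 1 n, ∀ b ∈ Finset.Icc 1 n, s a = s b → a = b := by
    intro a ha b hb' hab
    rw [Finset.mem_Icc] at ha hb'
    have hab' : (if a = n then 1 else a + 1) = (if b = n then 1 else b + 1) := hab
    split_ifs at hab' <;> omega
  have hex : ∃ j ∈ G, s j ∈ G := by
    by_contra hcon
    push Not at hcon
    have h1 : G.image s ⊆ (Finset.Icc 1 n) \ G := by
      intro x hx
      obtain ⟨j, hj, rfl⟩ := Finset.mem_image.1 hx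
      exact Finset.mem_sdiff.2 ⟨hs j (Finset.mem_filter.1 hj).1, hcon j hj⟩
    have h2 := Finset.card_le_card h1
    have hsub : G ⊆ Finset.Icc 1 n := Finset.filter_subset _ _
    rw [Finset.card_image_of_injOn, Finset.card_sdiff_of_subset hsub] at h2
    · have h3 : G.card ≤ (Finset.Icc 1 n).card := Finset.card_le_card (Finset.filter_subset _ _)
      rw [Nat.card_Icc] at h2 h3
      omega
    · intro a ha b hb' hab
      exact hsinj a (Finset.mem_filter.1 (Finset.mem_coe.1 ha)).1 b
        (Finset.mem_filter.1 (Finset.mem_coe.1 hb')).1 hab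
  obtain ⟨i, hi, hsi⟩ := hex
  rw [hG, Finset.mem_filter] at hi hsi
  have hi1 : 1 ≤ i := (Finset.mem_Icc.1 hi.1).1
  have hi2 : i ≤ n := (Finset.mem_Icc.1 hi.1).2
  have hnext : P (2 * π (i + 1) * (n + 1) + 1) := by
    have h1 := hsi.2
    have h2 : π (s i) = π (i + 1) := by
      show π (if i = n then 1 else i + 1) = _
      split_ifs with h3
      · rw [h3, hper]
      · rfl
    rwa [h2] at h1
  -- the new order
  let ρ : ℕ → ℕ := fun j => if j ≤ i then π j else if j = i + 1 then n + 1 else π (j - 1)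
  have hρ1 : ∀ j, j ≤ i → ρ j = π j := fun j hj => if_pos hj
  have hρ2 : ρ (i + 1) = n + 1 := by
    show (if i + 1 ≤ i then _ else _) = _
    rw [if_neg (by omega), if_pos rfl]
  have hρ3 : ∀ j, i + 1 < j → ρ j = π (j - 1) := by
    intro j hj
    show (if j ≤ i then _ else _) = _
    rw [if_neg (by omega), if_neg (by omega)]
  apply hasCircular_of (n + 1) (by omega)
  refine ⟨ρ, ⟨?_, ?_, ?_⟩, ?_, ?_⟩
  · intro j hj
    have hj1 := hj.1
    have hj2 := hj.2
    rcases lt_trichotomy j (i + 1) with h1 | h1 | h1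
    · rw [hρ1 j (by omega)]
      have := hb.mapsTo (show j ∈ Set.Icc 1 n from ⟨hj1, by omega⟩)
      exact ⟨this.1, this.2.trans (by omega)⟩
    · rw [h1, hρ2]
      exact ⟨by omega, le_rfl⟩
    · rw [hρ3 j h1]
      have := hb.mapsTo (show j - 1 ∈ Set.Icc 1 n from ⟨by omega, by omega⟩)
      exact ⟨this.1, this.2.trans (by omega)⟩
  · -- injective
    have hle : ∀ j, 1 ≤ j → j ≤ n → π j ≤ n := fun j h1 h2 => (hb.mapsTo ⟨h1, h2⟩).2
    intro a ha b hb' hab
    have ha1 := ha.1
    have ha2 := ha.2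
    have hb1 := hb'.1
    have hb2 := hb'.2
    rcases lt_trichotomy a (i + 1) with h1 | h1 | h1 <;>
      rcases lt_trichotomy b (i + 1) with h2 | h2 | h2
    · rw [hρ1 a (by omega), hρ1 b (by omega)] at hab
      exact hb.injOn ⟨ha1, by omega⟩ ⟨hb1, by omega⟩ hab
    · rw [hρ1 a (by omega), h2, hρ2] at hab
      have := hle a ha1 (by omega)
      omega
    · rw [hρ1 a (by omega), hρ3 b h2] at hab
      have := hb.injOn (show a ∈ Set.Icc 1 n from ⟨ha1, by omega⟩)
        (show b - 1 ∈ Set.Icc 1 n from ⟨by omega, by omega⟩) hab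
      omega
    · rw [hρ1 b (by omega), h1, hρ2] at hab
      have := hle b hb1 (by omega)
      omega
    · omega
    · rw [h1, hρ2, hρ3 b h2] at hab
      have := hle (b - 1) (by omega) (by omega)
      omega
    · rw [hρ1 b (by omega), hρ3 a h1] at hab
      have := hb.injOn (show a - 1 ∈ Set.Icc 1 n from ⟨by omega, by omega⟩)
        (show b ∈ Set.Icc 1 n from ⟨hb1, by omega⟩) hab
      omega
    · rw [h2, hρ2, hρ3 a h1] at hab
      have := hle (a - 1) (by omega) (by omega)
      omega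
    · rw [hρ3 a h1, hρ3 b h2] at hab
      have := hb.injOn (show a - 1 ∈ Set.Icc 1 n from ⟨by omega, by omega⟩)
        (show b - 1 ∈ Set.Icc 1 n from ⟨by omega, by omega⟩) hab
      omega
  · intro z hz
    have hz1 := hz.1
    have hz2 := hz.2
    by_cases hzn : z = n + 1
    · exact ⟨i + 1, ⟨by omega, by omega⟩, by rw [hρ2, hzn]⟩
    · obtain ⟨j, hj, rfl⟩ := hb.surjOn (show z ∈ Set.Icc 1 n from ⟨hz1, by omega⟩)
      have hj1 := hj.1
      have hj2 := hj.2
      by_cases hji : j ≤ i
      · exact ⟨j, ⟨hj1, by omega⟩, hρ1 j hji⟩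
      · refine ⟨j + 1, ⟨by omega, by omega⟩, ?_⟩
        rw [hρ3 (j + 1) (by omega)]
        rfl
  · rw [hρ3 (n + 1 + 1) (by omega), hρ1 1 hi1]
    exact hper
  · intro j hj
    have hj1 := hj.1
    have hj2 := hj.2
    rcases lt_trichotomy j i with h1 | h1 | h1
    · rw [hρ1 j (by omega), hρ1 (j + 1) (by omega)]
      exact hP j ⟨hj1, by omega⟩
    · subst h1
      rw [hρ1 j le_rfl, hρ2]
      exact hi.2
    · by_cases h2 : j = i + 1
      · rw [h2, hρ2, hρ3 (i + 1 + 1) (by omega)]
        have h3 : 2 * (n + 1) * π (i + 1 + 1 - 1) + 1 = 2 * π (i + 1) * (n + 1) + 1 := by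
          rw [Nat.add_sub_cancel]
          ring
        rw [h3]
        exact hnext
      · rw [hρ3 j (by omega), hρ3 (j + 1) (by omega)]
        have h3 := hP (j - 1) ⟨by omega, by omega⟩
        rw [Nat.sub_add_cancel (by omega)] at h3
        rw [Nat.add_sub_cancel]
        exact h3

end Pool.Agent.H34.CP
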