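import Pool.Agent.H34.CP.Omega
import Pool.Agent.H34.CP.Insert

/-!
Circular permutations with all numbers `2ab + 1` squarefree and with few prime factors.
-/

set_option autoImplicit false

namespace Pool.Agent.H34.CP

open Finset Real

/-- the odd squares -/
theorem sum_odd_sq (m : ℕ) :
    ∑ j ∈ Icc 1 m, (1 / ((2 * j + 1 : ℕ) : ℝ) ^ 2) ≤ 1 / 4 - 1 / (4 * ((m : ℝ) + 1)) := by
  induction m with
  | zero => norm_num
  | succ m ih =>
    rw [sum_Icc_succ_top (by omega)]
    have hm : (0 : ℝ) ≤ m := Nat.cast_nonneg m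
    have : (1 / ((2 * (m + 1) + 1 : ℕ) : ℝ) ^ 2) ≤
        1 / (4 * ((m : ℝ) + 1)) - 1 / (4 * ((m : ℝ) + 1 + 1)) := by
      push_cast
      rw [div_sub_div _ _ (by positivity) (by positivity),
        div_le_div_iff₀ (by positivity) (by positivity)]
      nlinarith
    push_cast at this ih ⊢
    linarith

/-- numbers `2kt + 1` which are not squarefree -/
theorem card_not_squarefree (t : ℕ) (ht : 2 ≤ t) :
    (((Icc 1 (t - 1)).filter (fun k => ¬ Squarefree (2 * k * t + 1))).card : ℝ) ≤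
      t / 4 + Nat.primeCounting (2 * t) := by
  classical
  set Pr := (Icc 1 (2 * t)).filter (fun p => p.Prime ∧ p ≠ 2) with hPr
  have h1 : (Icc 1 (t - 1)).filter (fun k => ¬ Squarefree (2 * k * t + 1)) ⊆
      Pr.biUnion (fun p => (Icc 1 (t - 1)).filter (fun k => p ^ 2 ∣ 2 * k * t + 1)) := by
    intro k hk
    rw [mem_filter, mem_Icc] at hk
    rw [Nat.squarefree_iff_prime_squarefree] at hk
    obtain ⟨hk1, hk2⟩ := hk
    push Not at hk2
    obtain ⟨p, hp, hpd⟩ := hk2
    rw [mem_biUnion]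
    refine ⟨p, ?_, ?_⟩
    · rw [hPr, mem_filter, mem_Icc]
      refine ⟨⟨hp.one_le, ?_⟩, hp, ?_⟩
      · by_contra hcon
        have h2 : 2 * k * t + 1 < (2 * t) * (2 * t) := by
          have h21 : k * t ≤ t * t := Nat.mul_le_mul_right _ (by omega)
          nlinarith
        have h3 := Nat.le_of_dvd (by omega) hpd
        have h4 : (2 * t) * (2 * t) ≤ p * p := Nat.mul_le_mul (by omega) (by omega)
        omega
      · rintro rfl
        have h5 : 2 ∣ 2 * (k * t) + 1 := by
          rw [← mul_assoc]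
          exact (Dvd.intro _ rfl).trans hpd
        omega
    · rw [mem_filter, mem_Icc]
      exact ⟨hk1, by rw [pow_two]; exact hpd⟩
  have h2 : (((Icc 1 (t - 1)).filter (fun k => ¬ Squarefree (2 * k * t + 1))).card : ℝ) ≤
      ∑ p ∈ Pr, ((t : ℝ) / (p : ℝ) ^ 2 + 1) := by
    have h3 := (card_le_card h1).trans card_biUnion_le
    have h4 : (((Icc 1 (t - 1)).filter (fun k => ¬ Squarefree (2 * k * t + 1))).card : ℝ) ≤
        ((∑ p ∈ Pr, ((Icc 1 (t - 1)).filter (fun k => p ^ 2 ∣ 2 * k * t + 1)).card : ℕ) : ℝ) := by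
      exact_mod_cast h3
    refine h4.trans ?_
    push_cast
    apply sum_le_sum
    intro p hp
    have hp0 : 0 < p := (mem_filter.1 hp).2.1.pos
    have h5 := card_dvd_le (p ^ 2) (t - 1) t (by positivity)
    have h6 : (((Icc 1 (t - 1)).filter (fun k => p ^ 2 ∣ 2 * k * t + 1)).card : ℝ) ≤
        (((t - 1) / p ^ 2 + 1 : ℕ) : ℝ) := by exact_mod_cast h5
    refine h6.trans ?_
    push_cast
    have h7 : (((t - 1) / p ^ 2 : ℕ) : ℝ) ≤ ((t - 1 : ℕ) : ℝ) / ((p ^ 2 : ℕ) : ℝ) :=
      Nat.cast_div_le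
    have h8 : ((t - 1 : ℕ) : ℝ) ≤ t := by exact_mod_cast Nat.sub_le _ _
    have h9 : ((t - 1 : ℕ) : ℝ) / ((p ^ 2 : ℕ) : ℝ) ≤ (t : ℝ) / (p : ℝ) ^ 2 := by
      push_cast
      exact div_le_div_of_nonneg_right h8 (by positivity)
    linarith
  have h3 : ∑ p ∈ Pr, ((t : ℝ) / (p : ℝ) ^ 2 + 1) =
      t * (∑ p ∈ Pr, 1 / (p : ℝ) ^ 2) + (Pr.card : ℝ) := by
    rw [sum_add_distrib, mul_sum, sum_const, nsmul_eq_mul, mul_one]
    congr 1
    apply sum_congr rfl
    intro p _
    ring
  have h4 : ∑ p ∈ Pr, 1 / (p : ℝ) ^ 2 ≤ 1 / 4 := by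
    have h5 : ∑ p ∈ Pr, 1 / (p : ℝ) ^ 2 ≤
        ∑ j ∈ Icc 1 t, (1 / ((2 * j + 1 : ℕ) : ℝ) ^ 2) := by
      have h6 : Pr ⊆ (Icc 1 t).image (fun j => 2 * j + 1) := by
        intro p hp
        rw [hPr, mem_filter, mem_Icc] at hp
        obtain ⟨⟨_, hp2⟩, hp3, hp4⟩ := hp
        have hodd := hp3.eq_two_or_odd
        have hp5 : p ≠ 1 := hp3.one_lt.ne'
        rw [mem_image]
        refine ⟨p / 2, mem_Icc.2 ⟨by omega, by omega⟩, by omega⟩
      refine (sum_le_sum_of_subset_of_nonneg h6 fun p _ _ => by positivity).trans ?_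
      rw [sum_image]
      intro a _ b _ hab
      have : 2 * a + 1 = 2 * b + 1 := hab
      omega
    have h7 := sum_odd_sq t
    have h8 : (0 : ℝ) ≤ 1 / (4 * ((t : ℝ) + 1)) := by positivity
    linarith
  have h5 : (Pr.card : ℝ) ≤ Nat.primeCounting (2 * t) := by
    rw [Nat.primeCounting, Nat.primeCounting', Nat.count_eq_card_filter_range]
    have h6 : Pr ⊆ (range (2 * t + 1)).filter Nat.Prime := by
      intro p hp
      rw [hPr, mem_filter, mem_Icc] at hp
      rw [mem_filter, mem_range]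
      exact ⟨by omega, hp.2.1⟩
    exact_mod_cast card_le_card h6
  have ht0 : (0 : ℝ) ≤ t := Nat.cast_nonneg t
  have h6 := mul_le_mul_of_nonneg_left h4 ht0
  rw [h3] at h2
  linarith

theorem eventually_good : ∃ N : ℕ, 16 ≤ N ∧ ∀ t : ℕ, N ≤ t → ∀ C : ℝ, 240 ≤ C →
    (t : ℝ) - 1 < 2 * (((Icc 1 (t - 1)).filter (fun k => Squarefree (2 * k * t + 1) ∧
      ((2 * k * t + 1).primeFactors.card : ℝ) ≤ C * log (log t))).card : ℝ) := by
  classical
  have h1 := Chebyshev.eventually_primeCounting_le (ε := 1) one_pos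
  have h2 : ∀ᶠ x : ℝ in Filter.atTop, 20 * (log 4 + 1) ≤ log x :=
    Real.tendsto_log_atTop.eventually (Filter.eventually_ge_atTop _)
  obtain ⟨x0, hx0⟩ := Filter.eventually_atTop.1 (h1.and h2)
  refine ⟨max 16 ⌈x0⌉₊, le_max_left _ _, ?_⟩
  intro t ht C hC
  have ht16 : 16 ≤ t := (le_max_left _ _).trans ht
  have htx : x0 ≤ 2 * (t : ℝ) := by
    have h3 : ⌈x0⌉₊ ≤ t := (le_max_right _ _).trans ht
    have h4 : x0 ≤ (t : ℝ) := Nat.ceil_le.1 h3
    have h5 : (0 : ℝ) ≤ t := Nat.cast_nonneg t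
    linarith
  have htR : (16 : ℝ) ≤ t := by exact_mod_cast ht16
  obtain ⟨h3, h4⟩ := hx0 (2 * t) htx
  -- primes
  have hpi : (Nat.primeCounting (2 * t) : ℝ) ≤ t / 10 := by
    have h5 : ⌊2 * (t : ℝ)⌋₊ = 2 * t := by
      have : (2 * (t : ℝ)) = ((2 * t : ℕ) : ℝ) := by push_cast; ring
      rw [this, Nat.floor_natCast]
    rw [h5] at h3
    have hlog4 : 0 < log 4 := log_pos (by norm_num)
    have h6 : 0 < log (2 * t) := by linarith
    refine h3.trans ?_
    rw [div_le_iff₀ h6]
    nlinarith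
  -- few prime factors
  have hlog16 : (2.76 : ℝ) < log 16 := by
    have h5 : log 16 = 4 * log 2 := by
      rw [show (16 : ℝ) = 2 ^ 4 by norm_num, log_pow]
      norm_num
    have := log_two_gt_d9
    rw [h5]
    linarith
  have hL : 1 ≤ log (log t) := by
    rw [le_log_iff_exp_le (by linarith [log_le_log (by norm_num) htR])]
    have h5 := log_le_log (by norm_num) htR
    have h6 := exp_one_lt_d9
    linarith
  have hmany := card_many t (by omega) (C * log (log t))
  set B1 := (Icc 1 (t - 1)).filter (fun k => ¬ Squarefree (2 * k * t + 1)) with hB1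
  set B2 := (Icc 1 (t - 1)).filter
    (fun k => C * log (log t) < ((2 * k * t + 1).primeFactors.card : ℝ)) with hB2
  set G := (Icc 1 (t - 1)).filter (fun k => Squarefree (2 * k * t + 1) ∧
      ((2 * k * t + 1).primeFactors.card : ℝ) ≤ C * log (log t)) with hG
  have hb1 : (B1.card : ℝ) ≤ t / 4 + Nat.primeCounting (2 * t) :=
    card_not_squarefree t (by omega)
  have hb2 : (B2.card : ℝ) ≤ t / 10 := by
    have h5 : (B2.card : ℝ) * (240 * log (log t)) ≤ (B2.card : ℝ) * (C * log (log t)) := by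
      apply mul_le_mul_of_nonneg_left _ (Nat.cast_nonneg _)
      exact mul_le_mul_of_nonneg_right hC (by linarith)
    have h6 : (B2.card : ℝ) * (240 * log (log t)) ≤ 24 * t * log (log t) := by
      refine h5.trans (hmany.trans ?_)
      nlinarith
    have h7 : ((B2.card : ℝ) * 10) * (24 * log (log t)) ≤ t * (24 * log (log t)) := by
      linarith
    have h8 := le_of_mul_le_mul_right h7 (by linarith)
    linarith
  have hcov : Icc 1 (t - 1) ⊆ B1 ∪ (B2 ∪ G) := by
    intro k hk
    rw [mem_union, mem_union, hB1, hB2, hG, mem_filter, mem_filter, mem_filter]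
    by_cases h5 : Squarefree (2 * k * t + 1)
    · by_cases h6 : ((2 * k * t + 1).primeFactors.card : ℝ) ≤ C * log (log t)
      · exact Or.inr (Or.inr ⟨hk, h5, h6⟩)
      · exact Or.inr (Or.inl ⟨hk, lt_of_not_ge h6⟩)
    · exact Or.inl ⟨hk, h5⟩
  have hcard := (card_le_card hcov).trans
    ((card_union_le _ _).trans (Nat.add_le_add_left (card_union_le _ _) _))
  rw [Nat.card_Icc] at hcard
  have hcard' : ((t - 1 + 1 - 1 : ℕ) : ℝ) ≤ ((B1.card + (B2.card + G.card) : ℕ) : ℝ) := by
    exact_mod_cast hcard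
  have h9 : ((t - 1 + 1 - 1 : ℕ) : ℝ) = (t : ℝ) - 1 := by
    rw [show t - 1 + 1 - 1 = t - 1 by omega, Nat.cast_sub (by omega)]
    norm_num
  rw [h9] at hcard'
  push_cast at hcard'
  linarith

/-- the values are at most `2 n² + 1` -/
theorem HasCircular.bound {n : ℕ} {P : ℕ → Prop} (h : HasCircular n P) :
    HasCircular n (fun m => P m ∧ m ≤ 2 * n ^ 2 + 1) := by
  obtain ⟨σ, hσ⟩ := h
  refine ⟨σ, fun i => ⟨hσ i, ?_⟩⟩
  have h1 : (σ i).val + 1 ≤ n := (σ i).2
  have h2 : (σ (finRotate n i)).val + 1 ≤ n := (σ (finRotate n i)).2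
  have h3 := Nat.mul_le_mul h1 h2
  nlinarith

/-- Squarefree numbers with few prime factors, from the squarefree case. -/
theorem few_of_squarefree (hbase : ∀ n : ℕ, 5 ≤ n → HasCircular n Squarefree) :
    ∃ C : ℝ, ∀ n : ℕ, 5 ≤ n → HasCircular n
      (fun m => Squarefree m ∧ (m.primeFactors.card : ℝ) ≤ C * log (log n)) := by
  classical
  obtain ⟨N, hN16, hN⟩ := eventually_good
  have h5 : 0 < log (log 5) := by
    apply log_pos
    rw [lt_log_iff_exp_lt (by norm_num)]
    have := exp_one_lt_d9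
    linarith
  have hlog5 : 0 < log 5 := log_pos (by norm_num)
  set C := max 240 ((2 * (N : ℝ) ^ 2 + 1) / log (log 5)) with hC
  have hC240 : 240 ≤ C := le_max_left _ _
  have hmono : ∀ a b : ℕ, 5 ≤ a → a ≤ b → log (log a) ≤ log (log b) := by
    intro a b ha hab
    have h6 : (5 : ℝ) ≤ a := by exact_mod_cast ha
    have h7 : (a : ℝ) ≤ b := by exact_mod_cast hab
    have h8 := log_le_log (by norm_num) h6
    exact log_le_log (by linarith) (log_le_log (by linarith) h7)
  refine ⟨C, ?_⟩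
  have hsmall : ∀ n : ℕ, 5 ≤ n → n ≤ N → HasCircular n
      (fun m => Squarefree m ∧ (m.primeFactors.card : ℝ) ≤ C * log (log n)) := by
    intro n hn hnN
    refine (hbase n hn).bound.mono fun m hm => ⟨hm.1, ?_⟩
    have h6 : m.primeFactors.card ≤ m := by
      have h7 : m.primeFactors ⊆ Icc 1 m := by
        intro p hp
        rw [mem_Icc]
        exact ⟨(Nat.prime_of_mem_primeFactors hp).one_le, Nat.le_of_mem_primeFactors hp⟩
      have := card_le_card h7
      rwa [Nat.card_Icc, Nat.add_sub_cancel] at this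
    have h7 : (m.primeFactors.card : ℝ) ≤ 2 * (N : ℝ) ^ 2 + 1 := by
      have h8 : m.primeFactors.card ≤ 2 * N ^ 2 + 1 := by
        refine h6.trans (hm.2.trans ?_)
        have := Nat.pow_le_pow_left hnN 2
        omega
      exact_mod_cast h8
    have h8 : 2 * (N : ℝ) ^ 2 + 1 ≤ C * log (log 5) := by
      rw [← div_le_iff₀ h5]
      exact le_max_right _ _
    have h9 := hmono 5 n le_rfl hn
    have h10 : C * log (log 5) ≤ C * log (log n) :=
      mul_le_mul_of_nonneg_left (by exact_mod_cast h9) (by linarith)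
    linarith
  intro n hn
  by_cases hnN : n ≤ N
  · exact hsmall n hn hnN
  · push Not at hnN
    induction n, hnN.le using Nat.le_induction with
    | base => exact hsmall N hn le_rfl
    | succ n hNn ih =>
      have hn5 : 5 ≤ n := by omega
      have hprev : HasCircular n
          (fun m => Squarefree m ∧ (m.primeFactors.card : ℝ) ≤ C * log (log n)) := by
        rcases Nat.lt_or_ge N n with h6 | h6
        · exact ih hn5 h6
        · exact hsmall n hn5 h6
      have hprev' : HasCircular n (fun m => Squarefree m ∧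
          (m.primeFactors.card : ℝ) ≤ C * log (log ((n + 1 : ℕ) : ℝ))) := by
        refine hprev.mono fun m hm => ⟨hm.1, hm.2.trans ?_⟩
        exact mul_le_mul_of_nonneg_left (hmono n (n + 1) hn5 (by omega)) (by linarith)
      refine insert_step n (by omega) _ hprev' ?_
      have h6 := hN (n + 1) (by omega) C hC240
      have h7 : ((n + 1 : ℕ) : ℝ) - 1 = (n : ℝ) := by push_cast; ring
      rw [h7, Nat.add_sub_cancel] at h6
      exact_mod_cast h6

end Pool.Agent.H34.CP
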