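import Mathlib

/-!
Few values `2 k t + 1`, `1 ≤ k ≤ n = t - 1`, have many prime factors.
-/

set_option autoImplicit false

namespace Pool.Agent.H34.CP

open Finset Real

/-- solutions of `m ∣ 2 k t + 1` are in one residue class -/
theorem card_dvd_le (m N t : ℕ) (hm : 0 < m) :
    ((Icc 1 N).filter (fun k => m ∣ 2 * k * t + 1)).card ≤ N / m + 1 := by
  rw [← card_range (N / m + 1)]
  apply card_le_card_of_injOn (fun k => k / m)
  · intro k hk
    have hk' := (mem_filter.1 (mem_coe.1 hk)).1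
    rw [mem_Icc] at hk'
    exact mem_coe.2 (mem_range.2 (Nat.lt_succ_of_le (Nat.div_le_div_right hk'.2)))
  · have key : ∀ a b : ℕ, m ∣ 2 * a * t + 1 → m ∣ 2 * b * t + 1 → a / m = b / m → a ≤ b →
        a = b := by
      intro a b ha hb hab hle
      have h1 : m ∣ (2 * b * t + 1) - (2 * a * t + 1) := Nat.dvd_sub hb ha
      have h2 : (2 * b * t + 1) - (2 * a * t + 1) = (2 * t) * (b - a) := by
        obtain ⟨c, rfl⟩ := Nat.exists_eq_add_of_le hle
        have : 2 * (a + c) * t + 1 = (2 * a * t + 1) + 2 * t * c := by ring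
        rw [this, Nat.add_sub_cancel_left, Nat.add_sub_cancel_left]
      rw [h2] at h1
      have hcop : Nat.Coprime m (2 * t) := by
        apply Nat.Coprime.symm
        rw [Nat.coprime_comm]
        refine Nat.Coprime.coprime_dvd_left ha ?_
        have : 2 * a * t + 1 = 1 + a * (2 * t) := by ring
        rw [this]
        simp
      have h3 : m ∣ b - a := hcop.dvd_of_dvd_mul_left h1
      obtain ⟨c, rfl⟩ := Nat.exists_eq_add_of_le hle
      rw [Nat.add_sub_cancel_left] at h3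
      obtain ⟨d, rfl⟩ := h3
      rw [Nat.add_mul_div_left _ _ hm] at hab
      have : d = 0 := by omega
      subst this
      simp
    intro a ha b hb hab
    have ha' := (mem_filter.1 (mem_coe.1 ha)).2
    have hb' := (mem_filter.1 (mem_coe.1 hb)).2
    have hab' : a / m = b / m := hab
    rcases le_total a b with h | h
    · exact key a b ha' hb' hab' h
    · exact (key b a hb' ha' hab'.symm h).symm

/-- the primes in a dyadic block -/
theorem dyadic (j : ℕ) (hj : 1 ≤ j) :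
    ∑ p ∈ (Ioc (2 ^ j) (2 ^ (j + 1))).filter Nat.Prime, (1 / (p : ℝ)) ≤ 4 / j := by
  set F := (Ioc (2 ^ j) (2 ^ (j + 1))).filter Nat.Prime with hF
  have h1 : (2 ^ j) ^ F.card ≤ 4 ^ (2 ^ (j + 1)) := by
    calc (2 ^ j) ^ F.card = ∏ p ∈ F, 2 ^ j := by rw [prod_const]
      _ ≤ ∏ p ∈ F, p := prod_le_prod' fun p hp => by
          have := (mem_Ioc.1 (mem_filter.1 hp).1).1
          omega
      _ ≤ primorial (2 ^ (j + 1)) := by
          apply prod_le_prod_of_subset_of_one_le'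
          · intro p hp
            have h2 := mem_filter.1 hp
            have h3 := mem_Ioc.1 h2.1
            exact mem_filter.2 ⟨mem_range.2 (by omega), h2.2⟩
          · intro p hp _
            exact (mem_filter.1 hp).2.one_le
      _ ≤ 4 ^ (2 ^ (j + 1)) := primorial_le_four_pow _
  have h2 : j * F.card ≤ 4 * 2 ^ j := by
    rw [← pow_mul, show (4 : ℕ) = 2 ^ 2 by norm_num, ← pow_mul] at h1
    have h3 := (Nat.pow_le_pow_iff_right (by norm_num : 1 < 2)).1 h1
    calc j * F.card ≤ 2 * 2 ^ (j + 1) := h3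
      _ = 4 * 2 ^ j := by ring
  have hjR : (0 : ℝ) < j := by exact_mod_cast hj
  calc ∑ p ∈ F, (1 / (p : ℝ)) ≤ ∑ p ∈ F, (1 / (2 : ℝ) ^ j) := by
        apply sum_le_sum
        intro p hp
        have := (mem_Ioc.1 (mem_filter.1 hp).1).1
        apply one_div_le_one_div_of_le (by positivity)
        have h5 : ((2 ^ j : ℕ) : ℝ) ≤ p := by exact_mod_cast this.le
        simpa using h5
    _ = F.card / (2 : ℝ) ^ j := by rw [sum_const, nsmul_eq_mul]; ring
    _ ≤ 4 / j := by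
        rw [div_le_div_iff₀ (by positivity) hjR]
        have : ((j * F.card : ℕ) : ℝ) ≤ ((4 * 2 ^ j : ℕ) : ℝ) := by exact_mod_cast h2
        push_cast at this
        linarith

theorem sum_pow (J : ℕ) :
    ∑ p ∈ (Icc 1 (2 ^ (J + 1))).filter Nat.Prime, (1 / (p : ℝ)) ≤
      1 + 4 * ∑ j ∈ Icc 1 J, (1 / (j : ℝ)) := by
  induction J with
  | zero =>
    have : (Icc 1 (2 ^ (0 + 1))).filter Nat.Prime = {2} := by decide
    rw [this]
    norm_num
  | succ J ih =>
    have hsplit : (Icc 1 (2 ^ (J + 1 + 1))).filter Nat.Prime =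
        (Icc 1 (2 ^ (J + 1))).filter Nat.Prime ∪
          (Ioc (2 ^ (J + 1)) (2 ^ (J + 1 + 1))).filter Nat.Prime := by
      ext p
      have hpow : 2 ^ (J + 1) ≤ 2 ^ (J + 1 + 1) := Nat.pow_le_pow_right (by norm_num) (by omega)
      simp only [mem_union, mem_filter, mem_Icc, mem_Ioc]
      constructor
      · rintro ⟨⟨h1, h2⟩, h3⟩
        by_cases h : p ≤ 2 ^ (J + 1)
        · exact Or.inl ⟨⟨h1, h⟩, h3⟩
        · exact Or.inr ⟨⟨by omega, h2⟩, h3⟩
      · rintro (⟨⟨h1, h2⟩, h3⟩ | ⟨⟨h1, h2⟩, h3⟩)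
        · exact ⟨⟨h1, by omega⟩, h3⟩
        · exact ⟨⟨by omega, h2⟩, h3⟩
    rw [hsplit]
    have hle : ∑ p ∈ (Icc 1 (2 ^ (J + 1))).filter Nat.Prime ∪
          (Ioc (2 ^ (J + 1)) (2 ^ (J + 1 + 1))).filter Nat.Prime, (1 / (p : ℝ)) ≤
        ∑ p ∈ (Icc 1 (2 ^ (J + 1))).filter Nat.Prime, (1 / (p : ℝ)) +
          ∑ p ∈ (Ioc (2 ^ (J + 1)) (2 ^ (J + 1 + 1))).filter Nat.Prime, (1 / (p : ℝ)) := by
      rw [← sum_union_inter]
      have : 0 ≤ ∑ p ∈ (Icc 1 (2 ^ (J + 1))).filter Nat.Prime ∩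
          (Ioc (2 ^ (J + 1)) (2 ^ (J + 1 + 1))).filter Nat.Prime, (1 / (p : ℝ)) :=
        sum_nonneg fun p _ => by positivity
      linarith
    have hd := dyadic (J + 1) (by omega)
    rw [sum_Icc_succ_top (by omega)]
    have : (4 : ℝ) / ((J + 1 : ℕ) : ℝ) = 4 * (1 / ((J + 1 : ℕ) : ℝ)) := by ring
    rw [this] at hd
    linarith

/-- `∑ 1/p ≤ 7 + 4 log log t` -/
theorem sum_inv_le (t : ℕ) (ht : 3 ≤ t) :
    ∑ p ∈ (Icc 1 t).filter Nat.Prime, (1 / (p : ℝ)) ≤ 7 + 4 * log (log t) := by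
  set J := Nat.log 2 t with hJ
  have hJ1 : 1 ≤ J := Nat.log_pos (by norm_num) (by omega)
  have h1 : t < 2 ^ (J + 1) := Nat.lt_pow_succ_log_self (by norm_num) t
  have h2 : 2 ^ J ≤ t := Nat.pow_log_le_self 2 (by omega)
  have h3 : ∑ p ∈ (Icc 1 t).filter Nat.Prime, (1 / (p : ℝ)) ≤
      ∑ p ∈ (Icc 1 (2 ^ (J + 1))).filter Nat.Prime, (1 / (p : ℝ)) := by
    apply sum_le_sum_of_subset_of_nonneg
    · intro p hp
      rw [mem_filter, mem_Icc] at hp ⊢
      exact ⟨⟨hp.1.1, by omega⟩, hp.2⟩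
    · intro p _ _
      positivity
  have h4 : ∑ j ∈ Icc 1 J, (1 / (j : ℝ)) ≤ 1 + log J := by
    have h5 := harmonic_le_one_add_log J
    have h6 : ((harmonic J : ℚ) : ℝ) = ∑ j ∈ Icc 1 J, (1 / (j : ℝ)) := by
      rw [harmonic_eq_sum_Icc]
      push_cast
      simp [one_div]
    linarith
  have hlog2 : (0 : ℝ) < log 2 := log_pos (by norm_num)
  have hJR : (1 : ℝ) ≤ J := by exact_mod_cast hJ1
  have h7 : (J : ℝ) * log 2 ≤ log t := by
    rw [← log_pow]
    apply log_le_log (by positivity)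
    exact_mod_cast h2
  have h8 : log J + log (log 2) ≤ log (log t) := by
    rw [← log_mul (by positivity) hlog2.ne']
    exact log_le_log (by positivity) h7
  have h9 : -(1 / 2 : ℝ) ≤ log (log 2) := by
    have h10 : (0.69 : ℝ) < log 2 := by have := log_two_gt_d9; linarith
    have h11 : -(1 / 2 : ℝ) ≤ log 0.69 := by
      have h12 := one_sub_inv_le_log_of_pos (show (0 : ℝ) < 0.69 by norm_num)
      have h13 : -(1 / 2 : ℝ) ≤ 1 - (0.69 : ℝ)⁻¹ := by norm_num
      linarith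
    exact le_trans h11 (log_le_log (by norm_num) h10.le)
  have h14 := sum_pow J
  linarith

/-- the prime factors above `t` -/
theorem card_large (t v : ℕ) (ht : 2 ≤ t) (hv0 : v ≠ 0) (hv : v < 2 * t ^ 2) :
    (v.primeFactors.filter (fun p => t < p)).card ≤ 2 := by
  set F := v.primeFactors.filter (fun p => t < p) with hF
  have h1 : t ^ F.card ≤ v := by
    calc t ^ F.card = ∏ p ∈ F, t := by rw [prod_const]
      _ ≤ ∏ p ∈ F, p := prod_le_prod' fun p hp => (mem_filter.1 hp).2.le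
      _ ≤ ∏ p ∈ v.primeFactors, p := by
          apply prod_le_prod_of_subset_of_one_le' (filter_subset _ _)
          intro p hp _
          exact (Nat.prime_of_mem_primeFactors hp).one_le
      _ ≤ v := Nat.le_of_dvd (Nat.pos_of_ne_zero hv0) (Nat.prod_primeFactors_dvd v)
  have h2 : t ^ F.card < t ^ 3 := by
    calc t ^ F.card ≤ v := h1
      _ < 2 * t ^ 2 := hv
      _ ≤ t * t ^ 2 := Nat.mul_le_mul_right _ ht
      _ = t ^ 3 := by ring
  have h3 := (Nat.pow_lt_pow_iff_right (by omega : 1 < t)).1 h2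
  omega

/-- the mean number of prime factors -/
theorem mean_le (t : ℕ) (ht : 3 ≤ t) :
    ∑ k ∈ Icc 1 (t - 1), ((2 * k * t + 1).primeFactors.card : ℝ) ≤
      2 * t * (8 + 4 * log (log t)) := by
  have hstep : ∀ k ∈ Icc 1 (t - 1), ((2 * k * t + 1).primeFactors.card : ℝ) ≤
      (((Icc 1 t).filter (fun p => p.Prime ∧ p ∣ 2 * k * t + 1)).card : ℝ) + 2 := by
    intro k hk
    rw [mem_Icc] at hk
    have h1 : 2 * k * t + 1 < 2 * t ^ 2 := by
      have h2 : k + 1 ≤ t := by omega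
      have h3 : 2 * (k + 1) * t ≤ 2 * t * t := by
        apply Nat.mul_le_mul_right
        omega
      nlinarith
    have h2 := card_large t (2 * k * t + 1) (by omega) (by omega) h1
    have h3 : (2 * k * t + 1).primeFactors ⊆
        (Icc 1 t).filter (fun p => p.Prime ∧ p ∣ 2 * k * t + 1) ∪
          (2 * k * t + 1).primeFactors.filter (fun p => t < p) := by
      intro p hp
      rw [mem_union, mem_filter, mem_filter, mem_Icc]
      have h4 := Nat.prime_of_mem_primeFactors hp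
      by_cases h5 : t < p
      · exact Or.inr ⟨hp, h5⟩
      · exact Or.inl ⟨⟨h4.one_le, by omega⟩, h4, Nat.dvd_of_mem_primeFactors hp⟩
    have h6 := (card_le_card h3).trans (card_union_le _ _)
    have h7 : (2 * k * t + 1).primeFactors.card ≤
        ((Icc 1 t).filter (fun p => p.Prime ∧ p ∣ 2 * k * t + 1)).card + 2 := by omega
    exact_mod_cast h7
  have htR : (3 : ℝ) ≤ t := by exact_mod_cast ht
  have hsum : ∑ k ∈ Icc 1 (t - 1),
      (((Icc 1 t).filter (fun p => p.Prime ∧ p ∣ 2 * k * t + 1)).card : ℝ) ≤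
      2 * t * ∑ p ∈ (Icc 1 t).filter Nat.Prime, (1 / (p : ℝ)) := by
    have h1 : ∑ k ∈ Icc 1 (t - 1),
        ((Icc 1 t).filter (fun p => p.Prime ∧ p ∣ 2 * k * t + 1)).card =
        ∑ p ∈ (Icc 1 t).filter Nat.Prime,
          ((Icc 1 (t - 1)).filter (fun k => p ∣ 2 * k * t + 1)).card := by
      simp only [card_filter, ← filter_filter]
      rw [sum_comm]
    have h2 : ∑ k ∈ Icc 1 (t - 1),
        (((Icc 1 t).filter (fun p => p.Prime ∧ p ∣ 2 * k * t + 1)).card : ℝ) =
        ((∑ k ∈ Icc 1 (t - 1),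
        ((Icc 1 t).filter (fun p => p.Prime ∧ p ∣ 2 * k * t + 1)).card : ℕ) : ℝ) := by
      push_cast
      rfl
    rw [h2, h1, mul_sum]
    push_cast
    apply sum_le_sum
    intro p hp
    rw [mem_filter, mem_Icc] at hp
    have hp0 : 0 < p := hp.2.pos
    have hpR : (0 : ℝ) < p := by exact_mod_cast hp0
    have h3 := card_dvd_le p (t - 1) t hp0
    have h4 : (((Icc 1 (t - 1)).filter (fun k => p ∣ 2 * k * t + 1)).card : ℝ) ≤
        (((t - 1) / p + 1 : ℕ) : ℝ) := by exact_mod_cast h3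
    have h5 : (((t - 1) / p : ℕ) : ℝ) ≤ t / p := by
      have h6 : (((t - 1) / p : ℕ) : ℝ) ≤ ((t - 1 : ℕ) : ℝ) / p := Nat.cast_div_le
      have h7 : ((t - 1 : ℕ) : ℝ) ≤ t := by exact_mod_cast Nat.sub_le _ _
      exact h6.trans (div_le_div_of_nonneg_right h7 hpR.le)
    have h8 : (1 : ℝ) ≤ t / p := by
      rw [le_div_iff₀ hpR, one_mul]
      exact_mod_cast hp.1.2
    push_cast at h4
    calc _ ≤ (((t - 1) / p : ℕ) : ℝ) + 1 := h4
      _ ≤ t / p + t / p := add_le_add h5 h8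
      _ = 2 * t * (1 / p) := by ring
  have hinv := sum_inv_le t ht
  calc _ ≤ ∑ k ∈ Icc 1 (t - 1),
      ((((Icc 1 t).filter (fun p => p.Prime ∧ p ∣ 2 * k * t + 1)).card : ℝ) + 2) :=
        sum_le_sum hstep
    _ = ∑ k ∈ Icc 1 (t - 1),
      (((Icc 1 t).filter (fun p => p.Prime ∧ p ∣ 2 * k * t + 1)).card : ℝ) +
        ((t - 1 : ℕ) : ℝ) * 2 := by
        rw [sum_add_distrib, sum_const, Nat.card_Icc, nsmul_eq_mul]
        norm_num
    _ ≤ 2 * t * (7 + 4 * log (log t)) + t * 2 := by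
        have h7 : ((t - 1 : ℕ) : ℝ) ≤ t := by exact_mod_cast Nat.sub_le _ _
        have h8 : 2 * (t : ℝ) * ∑ p ∈ (Icc 1 t).filter Nat.Prime, (1 / (p : ℝ)) ≤
            2 * t * (7 + 4 * log (log t)) := mul_le_mul_of_nonneg_left hinv (by positivity)
        linarith
    _ = 2 * t * (8 + 4 * log (log t)) := by ring

/-- Markov's inequality -/
theorem card_many (t : ℕ) (ht : 3 ≤ t) (T : ℝ) :
    (((Icc 1 (t - 1)).filter
      (fun k => T < ((2 * k * t + 1).primeFactors.card : ℝ))).card : ℝ) * T ≤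
      2 * t * (8 + 4 * log (log t)) := by
  set F := (Icc 1 (t - 1)).filter
      (fun k => T < ((2 * k * t + 1).primeFactors.card : ℝ)) with hF
  calc (F.card : ℝ) * T = ∑ k ∈ F, T := by rw [sum_const, nsmul_eq_mul]
    _ ≤ ∑ k ∈ F, ((2 * k * t + 1).primeFactors.card : ℝ) :=
        sum_le_sum fun k hk => (mem_filter.1 hk).2.le
    _ ≤ ∑ k ∈ Icc 1 (t - 1), ((2 * k * t + 1).primeFactors.card : ℝ) :=
        sum_le_sum_of_subset_of_nonneg (filter_subset _ _) fun k _ _ => by positivity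
    _ ≤ _ := mean_le t ht

end Pool.Agent.H34.CP
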