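import Pool.Agent.H34.CP.Few

/-!
Circular permutations with all numbers `2ab + 1` squarefree, with few prime factors, and with a
bounded number of prime factors up to a small factor.
-/

set_option autoImplicit false

namespace Pool.Agent.H34.CP

open Finset Real

theorem dyadic_log (j : ℕ) (hj : 1 ≤ j) :
    ∑ p ∈ (Ioc (2 ^ j) (2 ^ (j + 1))).filter Nat.Prime, (log p / (p : ℝ)) ≤ 6 := by
  have hjR : (1 : ℝ) ≤ j := by exact_mod_cast hj
  have hlog2 : log 2 < 0.6931471808 := log_two_lt_d9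
  have hlog2' : 0 < log 2 := log_pos (by norm_num)
  have h1 : ∑ p ∈ (Ioc (2 ^ j) (2 ^ (j + 1))).filter Nat.Prime, (log p / (p : ℝ)) ≤
      ∑ p ∈ (Ioc (2 ^ j) (2 ^ (j + 1))).filter Nat.Prime, (((j : ℝ) + 1) * log 2) * (1 / (p : ℝ)) := by
    apply sum_le_sum
    intro p hp
    rw [mem_filter, mem_Ioc] at hp
    have hp0 : (0 : ℝ) < p := by exact_mod_cast hp.2.pos
    rw [mul_one_div]
    apply div_le_div_of_nonneg_right _ hp0.le
    have h2 : (p : ℝ) ≤ 2 ^ (j + 1) := by exact_mod_cast hp.1.2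
    have h3 := log_le_log hp0 h2
    rw [log_pow] at h3
    push_cast at h3
    exact h3
  rw [← mul_sum] at h1
  have h2 := dyadic j hj
  have h3 : ((j : ℝ) + 1) * log 2 *
      ∑ p ∈ (Ioc (2 ^ j) (2 ^ (j + 1))).filter Nat.Prime, (1 / (p : ℝ)) ≤
      ((j : ℝ) + 1) * log 2 * (4 / j) := mul_le_mul_of_nonneg_left h2 (by positivity)
  have h4 : ((j : ℝ) + 1) * log 2 * (4 / j) ≤ 6 := by
    have h5 : ((j : ℝ) + 1) * log 2 * (4 / j) = ((j : ℝ) + 1) * log 2 * 4 / j := by ring
    rw [h5, div_le_iff₀ (by linarith)]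
    nlinarith
  linarith

theorem sum_log_pow (J : ℕ) :
    ∑ p ∈ (Icc 1 (2 ^ (J + 1))).filter Nat.Prime, (log p / (p : ℝ)) ≤ 6 * (J + 1) := by
  induction J with
  | zero =>
    have : (Icc 1 (2 ^ (0 + 1))).filter Nat.Prime = {2} := by decide
    rw [this, sum_singleton]
    have hlog2 : log 2 < 0.6931471808 := log_two_lt_d9
    norm_num
    linarith
  | succ J ih =>
    have hsplit : (Icc 1 (2 ^ (J + 1 + 1))).filter Nat.Prime =
        (Icc 1 (2 ^ (J + 1))).filter Nat.Prime ∪
          (Ioc (2 ^ (J + 1)) (2 ^ (J + 1 + 1))).filter Nat.Prime := by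
      ext p
      have hpow : 2 ^ (J + 1) ≤ 2 ^ (J + 1 + 1) := Nat.pow_le_pow_right (by norm_num) (by omega)
      simp only [mem_union, mem_filter, mem_Icc, mem_Ioc]
      constructor
      · rintro ⟨⟨h1, h2⟩, h3⟩
        by_cases h : p ≤ 2 ^ (J + 1)
        · exact Or.inl ⟨⟨h1, h⟩, h3⟩
        · exact Or.inr ⟨⟨by omega, h2⟩, h3⟩
      · rintro (⟨⟨h1, h2⟩, h3⟩ | ⟨⟨h1, h2⟩, h3⟩)
        · exact ⟨⟨h1, by omega⟩, h3⟩
        · exact ⟨⟨by omega, h2⟩, h3⟩
    rw [hsplit]
    have hnn : ∀ p : ℕ, 0 ≤ log p / (p : ℝ) := fun p =>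
      div_nonneg (log_natCast_nonneg p) (Nat.cast_nonneg p)
    have hle : ∑ p ∈ (Icc 1 (2 ^ (J + 1))).filter Nat.Prime ∪
          (Ioc (2 ^ (J + 1)) (2 ^ (J + 1 + 1))).filter Nat.Prime, (log p / (p : ℝ)) ≤
        ∑ p ∈ (Icc 1 (2 ^ (J + 1))).filter Nat.Prime, (log p / (p : ℝ)) +
          ∑ p ∈ (Ioc (2 ^ (J + 1)) (2 ^ (J + 1 + 1))).filter Nat.Prime, (log p / (p : ℝ)) := by
      rw [← sum_union_inter]
      have : 0 ≤ ∑ p ∈ (Icc 1 (2 ^ (J + 1))).filter Nat.Prime ∩
          (Ioc (2 ^ (J + 1)) (2 ^ (J + 1 + 1))).filter Nat.Prime, (log p / (p : ℝ)) :=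
        sum_nonneg fun p _ => hnn p
      linarith
    have hd := dyadic_log (J + 1) (by omega)
    push_cast
    linarith

/-- the logarithm of the part of `v` made of primes up to `y` (each prime once) -/
noncomputable def sm (y v : ℕ) : ℝ := ∑ p ∈ v.primeFactors.filter (fun p => p ≤ y), log p

theorem sm_nonneg (y v : ℕ) : 0 ≤ sm y v := sum_nonneg fun p _ => log_natCast_nonneg p

theorem mean_sm (t J : ℕ) (ht : 2 ^ (J + 1) ≤ t) :
    ∑ k ∈ Icc 1 (t - 1), sm (2 ^ (J + 1)) (2 * k * t + 1) ≤ 12 * t * (J + 1) := by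
  set y := 2 ^ (J + 1) with hy
  have h1 : ∑ k ∈ Icc 1 (t - 1), sm y (2 * k * t + 1) ≤
      ∑ k ∈ Icc 1 (t - 1), ∑ p ∈ (Icc 1 y).filter Nat.Prime,
        (if p ∣ 2 * k * t + 1 then log p else 0) := by
    apply sum_le_sum
    intro k _
    rw [← sum_filter, sm]
    apply sum_le_sum_of_subset_of_nonneg
    · intro p hp
      rw [mem_filter] at hp
      rw [mem_filter, mem_filter, mem_Icc]
      have h4 := Nat.prime_of_mem_primeFactors hp.1
      exact ⟨⟨⟨h4.one_le, hp.2⟩, h4⟩, Nat.dvd_of_mem_primeFactors hp.1⟩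
    · intro p _ _
      exact log_natCast_nonneg p
  have h2 : ∑ k ∈ Icc 1 (t - 1), ∑ p ∈ (Icc 1 y).filter Nat.Prime,
        (if p ∣ 2 * k * t + 1 then log (p : ℝ) else 0) ≤
      2 * t * ∑ p ∈ (Icc 1 y).filter Nat.Prime, (log p / (p : ℝ)) := by
    rw [sum_comm, mul_sum]
    apply sum_le_sum
    intro p hp
    rw [mem_filter, mem_Icc] at hp
    rw [← sum_filter, sum_const, nsmul_eq_mul]
    have hp0 : 0 < p := hp.2.pos
    have hpR : (0 : ℝ) < p := by exact_mod_cast hp0
    have h3 := card_dvd_le p (t - 1) t hp0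
    have h4 : (((Icc 1 (t - 1)).filter (fun k => p ∣ 2 * k * t + 1)).card : ℝ) ≤
        (((t - 1) / p + 1 : ℕ) : ℝ) := by exact_mod_cast h3
    have h5 : (((t - 1) / p : ℕ) : ℝ) ≤ t / p := by
      have h6 : (((t - 1) / p : ℕ) : ℝ) ≤ ((t - 1 : ℕ) : ℝ) / p := Nat.cast_div_le
      have h7 : ((t - 1 : ℕ) : ℝ) ≤ t := by exact_mod_cast Nat.sub_le _ _
      exact h6.trans (div_le_div_of_nonneg_right h7 hpR.le)
    have h8 : (1 : ℝ) ≤ t / p := by
      rw [le_div_iff₀ hpR, one_mul]
      exact_mod_cast hp.1.2.trans ht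
    push_cast at h4
    have h9 : (((Icc 1 (t - 1)).filter (fun k => p ∣ 2 * k * t + 1)).card : ℝ) ≤
        2 * t / p := by
      calc _ ≤ (((t - 1) / p : ℕ) : ℝ) + 1 := h4
        _ ≤ t / p + t / p := add_le_add h5 h8
        _ = 2 * t / p := by ring
    calc _ ≤ (2 * t / p) * log p := mul_le_mul_of_nonneg_right h9 (log_natCast_nonneg p)
      _ = 2 * t * (log p / p) := by ring
  have h3 := sum_log_pow J
  have h4 : (0 : ℝ) ≤ 2 * t := by positivity
  have h5 := mul_le_mul_of_nonneg_left h3 h4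
  calc _ ≤ _ := h1
    _ ≤ _ := h2
    _ ≤ 2 * t * (6 * (J + 1)) := h5
    _ = 12 * t * (J + 1) := by ring

theorem card_sm (t J : ℕ) (ht : 2 ^ (J + 1) ≤ t) (T : ℝ) :
    (((Icc 1 (t - 1)).filter (fun k => T < sm (2 ^ (J + 1)) (2 * k * t + 1))).card : ℝ) * T ≤
      12 * t * (J + 1) := by
  set F := (Icc 1 (t - 1)).filter (fun k => T < sm (2 ^ (J + 1)) (2 * k * t + 1)) with hF
  calc (F.card : ℝ) * T = ∑ k ∈ F, T := by rw [sum_const, nsmul_eq_mul]
    _ ≤ ∑ k ∈ F, sm (2 ^ (J + 1)) (2 * k * t + 1) :=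
        sum_le_sum fun k hk => (mem_filter.1 hk).2.le
    _ ≤ ∑ k ∈ Icc 1 (t - 1), sm (2 ^ (J + 1)) (2 * k * t + 1) :=
        sum_le_sum_of_subset_of_nonneg (filter_subset _ _) fun k _ _ => sm_nonneg _ _
    _ ≤ _ := mean_sm t J ht

/-- the number of prime factors above `2 ^ (J + 1)` -/
theorem card_rough (t J r v : ℕ) (ht : 2 ≤ t) (hv0 : v ≠ 0) (hv : v < 2 * t ^ 2)
    (hr : 3 * log t ≤ r * ((J + 1) * log 2)) :
    (v.primeFactors.filter (fun p => 2 ^ (J + 1) < p)).card ≤ r := by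
  set y := 2 ^ (J + 1) with hy
  set F := v.primeFactors.filter (fun p => y < p) with hF
  have h1 : y ^ F.card ≤ v := by
    calc y ^ F.card = ∏ p ∈ F, y := by rw [prod_const]
      _ ≤ ∏ p ∈ F, p := prod_le_prod' fun p hp => (mem_filter.1 hp).2.le
      _ ≤ ∏ p ∈ v.primeFactors, p := by
          apply prod_le_prod_of_subset_of_one_le' (filter_subset _ _)
          intro p hp _
          exact (Nat.prime_of_mem_primeFactors hp).one_le
      _ ≤ v := Nat.le_of_dvd (Nat.pos_of_ne_zero hv0) (Nat.prod_primeFactors_dvd v)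
  have h2 : y ^ F.card < t ^ 3 := by
    calc y ^ F.card ≤ v := h1
      _ < 2 * t ^ 2 := hv
      _ ≤ t * t ^ 2 := Nat.mul_le_mul_right _ ht
      _ = t ^ 3 := by ring
  have h3 : ((y : ℝ)) ^ F.card < (t : ℝ) ^ 3 := by exact_mod_cast h2
  have hy0 : (0 : ℝ) < y := by rw [hy]; positivity
  have h4 := log_lt_log (by positivity) h3
  rw [log_pow, log_pow] at h4
  have h5 : log (y : ℝ) = (J + 1) * log 2 := by
    rw [hy]
    push_cast
    rw [log_pow]
    push_cast
    ring
  rw [h5] at h4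
  push_cast at h4
  have h6 : 0 < ((J : ℝ) + 1) * log 2 := by
    have : 0 < log 2 := log_pos (by norm_num)
    positivity
  have h7 : (F.card : ℝ) * ((J + 1) * log 2) < r * ((J + 1) * log 2) := lt_of_lt_of_le h4 hr
  have h8 := lt_of_mul_lt_mul_right h7 h6.le
  have h9 : F.card < r := by exact_mod_cast h8
  omega

/-- splitting a squarefree number -/
theorem split (y v : ℕ) (hv : Squarefree v) (B : ℝ) (hB : sm y v ≤ B) :
    ∃ u w : ℕ, v = u * w ∧ (u : ℝ) ≤ exp B ∧
      w.primeFactors.card ≤ (v.primeFactors.filter (fun p => y < p)).card := by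
  refine ⟨∏ p ∈ v.primeFactors.filter (fun p => p ≤ y), p,
    ∏ p ∈ v.primeFactors.filter (fun p => ¬ p ≤ y), p, ?_, ?_, ?_⟩
  · rw [prod_filter_mul_prod_filter_not]
    exact (Nat.prod_primeFactors_of_squarefree hv).symm
  · have h1 : log ((∏ p ∈ v.primeFactors.filter (fun p => p ≤ y), p : ℕ) : ℝ) = sm y v := by
      push_cast
      rw [log_prod]
      · rfl
      · intro p hp
        have := (Nat.prime_of_mem_primeFactors (mem_filter.1 hp).1).pos
        have h2 : (0 : ℝ) < p := by exact_mod_cast this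
        exact h2.ne'
    have h3 : (0 : ℝ) < ((∏ p ∈ v.primeFactors.filter (fun p => p ≤ y), p : ℕ) : ℝ) := by
      have : 0 < ∏ p ∈ v.primeFactors.filter (fun p => p ≤ y), p :=
        prod_pos fun p hp => (Nat.prime_of_mem_primeFactors (mem_filter.1 hp).1).pos
      exact_mod_cast this
    rw [← log_le_iff_le_exp h3, h1]
    exact hB
  · have h1 : (∏ p ∈ v.primeFactors.filter (fun p => ¬ p ≤ y), p).primeFactors =
        v.primeFactors.filter (fun p => ¬ p ≤ y) := by
      apply Nat.primeFactors_prod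
      intro p hp
      exact Nat.prime_of_mem_primeFactors (mem_filter.1 hp).1
    rw [h1]
    apply le_of_eq
    congr 1
    apply filter_congr
    intro p _
    exact not_le

theorem count_cover (t : ℕ) (ht : 1 ≤ t) (B1 B2 B3 G : Finset ℕ)
    (hcov : Icc 1 (t - 1) ⊆ B1 ∪ (B2 ∪ (B3 ∪ G))) :
    (t : ℝ) - 1 ≤ B1.card + (B2.card + (B3.card + G.card)) := by
  have hcard := (card_le_card hcov).trans
    ((card_union_le _ _).trans (Nat.add_le_add_left ((card_union_le _ _).trans
      (Nat.add_le_add_left (card_union_le _ _) _)) _))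
  rw [Nat.card_Icc] at hcard
  have hcard' : ((t - 1 + 1 - 1 : ℕ) : ℝ) ≤
      ((B1.card + (B2.card + (B3.card + G.card)) : ℕ) : ℝ) := by
    exact_mod_cast hcard
  have h9 : ((t - 1 + 1 - 1 : ℕ) : ℝ) = (t : ℝ) - 1 := by
    rw [show t - 1 + 1 - 1 = t - 1 by omega, Nat.cast_sub (by omega)]
    norm_num
  rw [h9] at hcard'
  push_cast at hcard'
  exact hcard'

open Classical in
theorem eventually_good2 (ε : ℝ) (hε : 0 < ε) (hε1 : ε ≤ 1) : ∃ N r : ℕ, 16 ≤ N ∧
    ∀ t : ℕ, N ≤ t → ∀ C : ℝ, 240 ≤ C →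
    (t : ℝ) - 1 < 2 * (((Icc 1 (t - 1)).filter (fun k => Squarefree (2 * k * t + 1) ∧
      ((2 * k * t + 1).primeFactors.card : ℝ) ≤ C * log (log t) ∧
      ∃ u w : ℕ, 2 * k * t + 1 = u * w ∧ (u : ℝ) ≤ (t : ℝ) ^ ε ∧
        w.primeFactors.card ≤ r)).card : ℝ) := by
  have h1 := Chebyshev.eventually_primeCounting_le (ε := 1) one_pos
  have h2 : ∀ᶠ x : ℝ in Filter.atTop, 20 * (log 4 + 1) ≤ log x :=
    Real.tendsto_log_atTop.eventually (Filter.eventually_ge_atTop _)
  have h2' : ∀ᶠ x : ℝ in Filter.atTop, 1200 / ε + 1 ≤ log x :=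
    Real.tendsto_log_atTop.eventually (Filter.eventually_ge_atTop _)
  obtain ⟨x0, hx0⟩ := Filter.eventually_atTop.1 ((h1.and h2).and h2')
  refine ⟨max 16 ⌈x0⌉₊, ⌈6000 / ε⌉₊, le_max_left _ _, ?_⟩
  intro t ht C hC
  set r := ⌈6000 / ε⌉₊ with hr
  have hrR : 6000 / ε ≤ (r : ℝ) := Nat.le_ceil _
  have ht16 : 16 ≤ t := (le_max_left _ _).trans ht
  have htR : (16 : ℝ) ≤ t := by exact_mod_cast ht16
  have htx0 : x0 ≤ (t : ℝ) := Nat.ceil_le.1 ((le_max_right _ _).trans ht)
  have htx : x0 ≤ 2 * (t : ℝ) := by linarith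
  obtain ⟨⟨h3, h4⟩, -⟩ := hx0 (2 * t) htx
  obtain ⟨-, hLε⟩ := hx0 t htx0
  -- primes
  have hpi : (Nat.primeCounting (2 * t) : ℝ) ≤ t / 10 := by
    have h5 : ⌊2 * (t : ℝ)⌋₊ = 2 * t := by
      have : (2 * (t : ℝ)) = ((2 * t : ℕ) : ℝ) := by push_cast; ring
      rw [this, Nat.floor_natCast]
    rw [h5] at h3
    have hlog4 : 0 < log 4 := log_pos (by norm_num)
    have h6 : 0 < log (2 * t) := by linarith
    refine h3.trans ?_
    rw [div_le_iff₀ h6]
    nlinarith
  -- few prime factors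
  have hlog16 : (2.76 : ℝ) < log 16 := by
    have h5 : log 16 = 4 * log 2 := by
      rw [show (16 : ℝ) = 2 ^ 4 by norm_num, log_pow]
      norm_num
    have := log_two_gt_d9
    rw [h5]
    linarith
  have hL : 1 ≤ log (log t) := by
    rw [le_log_iff_exp_le (by linarith [log_le_log (by norm_num) htR])]
    have h5 := log_le_log (by norm_num) htR
    have h6 := exp_one_lt_d9
    linarith
  have hlogt : 0 < log t := by
    have h5 := log_le_log (by norm_num) htR
    linarith
  have hmany := card_many t (by omega) (C * log (log t))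
  -- the smoothness bound
  set K := ⌊ε * log t / 600⌋₊ with hK
  have hεL : 1200 ≤ ε * log t := by
    have h5 : ε * (1200 / ε + 1) ≤ ε * log t := mul_le_mul_of_nonneg_left hLε hε.le
    have h6 : ε * (1200 / ε + 1) = 1200 + ε := by field_simp
    linarith
  have hKle : (K : ℝ) ≤ ε * log t / 600 := Nat.floor_le (by positivity)
  have hKlt : ε * log t / 600 < K + 1 := Nat.lt_floor_add_one _
  have hKge : ε * log t / 1200 ≤ K := by linarith
  have hK1 : 1 ≤ K := by
    have : (1 : ℝ) ≤ K := by linarith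
    exact_mod_cast this
  obtain ⟨J, hJ⟩ : ∃ J, K = J + 1 := ⟨K - 1, by omega⟩
  have hJR : (K : ℝ) = J + 1 := by rw [hJ]; push_cast; ring
  have hlog2 : log 2 < 0.6931471808 := log_two_lt_d9
  have hlog2' : 0.6931471803 < log 2 := log_two_gt_d9
  have hpow : 2 ^ (J + 1) ≤ t := by
    have h5 : ((2 : ℝ)) ^ (J + 1) ≤ t := by
      rw [← log_le_log_iff (by positivity) (by linarith), log_pow, ← hJ]
      have h6 : (K : ℝ) ≤ log t := by nlinarith
      nlinarith
    exact_mod_cast h5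
  have hsm := card_sm t J hpow (ε * log t)
  set B1 := (Icc 1 (t - 1)).filter (fun k => ¬ Squarefree (2 * k * t + 1)) with hB1
  set B2 := (Icc 1 (t - 1)).filter
    (fun k => C * log (log t) < ((2 * k * t + 1).primeFactors.card : ℝ)) with hB2
  set B3 := (Icc 1 (t - 1)).filter
    (fun k => ε * log t < sm (2 ^ (J + 1)) (2 * k * t + 1)) with hB3
  set G := (Icc 1 (t - 1)).filter (fun k => Squarefree (2 * k * t + 1) ∧
      ((2 * k * t + 1).primeFactors.card : ℝ) ≤ C * log (log t) ∧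
      ∃ u w : ℕ, 2 * k * t + 1 = u * w ∧ (u : ℝ) ≤ (t : ℝ) ^ ε ∧
        w.primeFactors.card ≤ r) with hG
  have hb1 : (B1.card : ℝ) ≤ t / 4 + Nat.primeCounting (2 * t) :=
    card_not_squarefree t (by omega)
  have hb2 : (B2.card : ℝ) ≤ t / 10 := by
    have h5 : (B2.card : ℝ) * (240 * log (log t)) ≤ (B2.card : ℝ) * (C * log (log t)) := by
      apply mul_le_mul_of_nonneg_left _ (Nat.cast_nonneg _)
      exact mul_le_mul_of_nonneg_right hC (by linarith)
    have h6 : (B2.card : ℝ) * (240 * log (log t)) ≤ 24 * t * log (log t) := by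
      refine h5.trans (hmany.trans ?_)
      nlinarith
    have h7 : ((B2.card : ℝ) * 10) * (24 * log (log t)) ≤ t * (24 * log (log t)) := by
      linarith
    have h8 := le_of_mul_le_mul_right h7 (by linarith)
    linarith
  have hb3 : (B3.card : ℝ) ≤ t / 50 := by
    rw [← hJR] at hsm
    have h5 : 12 * (t : ℝ) * K ≤ 12 * t * (ε * log t / 600) :=
      mul_le_mul_of_nonneg_left hKle (by positivity)
    have h6 : (B3.card : ℝ) * (ε * log t) ≤ t / 50 * (ε * log t) := by
      have h7 : 12 * (t : ℝ) * (ε * log t / 600) = t / 50 * (ε * log t) := by ring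
      linarith
    exact le_of_mul_le_mul_right h6 (by linarith)
  have hcov : Icc 1 (t - 1) ⊆ B1 ∪ (B2 ∪ (B3 ∪ G)) := by
    intro k hk
    rw [mem_union, mem_union, mem_union, hB1, hB2, hB3, hG, mem_filter, mem_filter, mem_filter,
      mem_filter]
    by_cases h5 : Squarefree (2 * k * t + 1)
    · by_cases h6 : ((2 * k * t + 1).primeFactors.card : ℝ) ≤ C * log (log t)
      · by_cases h7 : sm (2 ^ (J + 1)) (2 * k * t + 1) ≤ ε * log t
        · refine Or.inr (Or.inr (Or.inr ⟨hk, h5, h6, ?_⟩))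
          obtain ⟨u, w, huw, hu, hw⟩ := split _ _ h5 _ h7
          refine ⟨u, w, huw, ?_, ?_⟩
          · rw [rpow_def_of_pos (by linarith), mul_comm]
            exact hu
          · refine hw.trans ?_
            rw [mem_Icc] at hk
            apply card_rough t J r _ (by omega) (by omega)
            · have h8 : k * t ≤ (t - 1) * t := Nat.mul_le_mul_right _ hk.2
              obtain ⟨s, hs⟩ : ∃ s, t = s + 1 := ⟨t - 1, by omega⟩
              rw [hs] at h8 ⊢
              rw [Nat.add_sub_cancel] at h8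
              nlinarith
            · rw [← hJR]
              have h9 : (6000 / ε) * ((ε * log t / 1200) * 0.69) ≤ r * (K * log 2) := by
                apply mul_le_mul hrR _ (by positivity) (by positivity)
                exact mul_le_mul hKge (by linarith) (by norm_num) (by positivity)
              have h10 : (6000 / ε) * ((ε * log t / 1200) * 0.69) = 3.45 * log t := by
                field_simp
                ring
              linarith
        · exact Or.inr (Or.inr (Or.inl ⟨hk, lt_of_not_ge h7⟩))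
      · exact Or.inr (Or.inl ⟨hk, lt_of_not_ge h6⟩)
    · exact Or.inl ⟨hk, h5⟩
  have hcard' := count_cover t (by omega) B1 B2 B3 G hcov
  have h34 : (34 : ℝ) < t := by
    have h5 : log t ≤ t - 1 := log_le_sub_one_of_pos (by linarith)
    have h6 : 1200 ≤ log t := by nlinarith
    linarith
  linarith

/-- Squarefree numbers with few prime factors, and with a bounded number of prime factors up to a
small factor, from the squarefree case. -/
theorem rough_of_squarefree (hbase : ∀ n : ℕ, 5 ≤ n → HasCircular n Squarefree)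
    (ε : ℝ) (hε : 0 < ε) :
    ∃ C : ℝ, ∃ r : ℕ, ∀ n : ℕ, 5 ≤ n → HasCircular n
      (fun m => Squarefree m ∧ (m.primeFactors.card : ℝ) ≤ C * log (log n) ∧
        ∃ u w : ℕ, m = u * w ∧ (u : ℝ) ≤ (n : ℝ) ^ ε ∧ w.primeFactors.card ≤ r) := by
  classical
  obtain ⟨N, r0, hN16, hN⟩ := eventually_good2 (min ε 1) (lt_min hε one_pos) (min_le_right _ _)
  have h5 : 0 < log (log 5) := by
    apply log_pos
    rw [lt_log_iff_exp_lt (by norm_num)]
    have := exp_one_lt_d9
    linarith
  have hlog5 : 0 < log 5 := log_pos (by norm_num)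
  set C := max 240 ((2 * (N : ℝ) ^ 2 + 1) / log (log 5)) with hC
  set r := max r0 (2 * N ^ 2 + 1) with hr
  have hC240 : 240 ≤ C := le_max_left _ _
  have hmono : ∀ a b : ℕ, 5 ≤ a → a ≤ b → log (log a) ≤ log (log b) := by
    intro a b ha hab
    have h6 : (5 : ℝ) ≤ a := by exact_mod_cast ha
    have h7 : (a : ℝ) ≤ b := by exact_mod_cast hab
    have h8 := log_le_log (by norm_num) h6
    exact log_le_log (by linarith) (log_le_log (by linarith) h7)
  refine ⟨C, r, ?_⟩
  have hsmall : ∀ n : ℕ, 5 ≤ n → n ≤ N → HasCircular n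
      (fun m => Squarefree m ∧ (m.primeFactors.card : ℝ) ≤ C * log (log n) ∧
        ∃ u w : ℕ, m = u * w ∧ (u : ℝ) ≤ (n : ℝ) ^ ε ∧ w.primeFactors.card ≤ r) := by
    intro n hn hnN
    refine (hbase n hn).bound.mono fun m hm => ?_
    have h6 : m.primeFactors.card ≤ m := by
      have h7 : m.primeFactors ⊆ Icc 1 m := by
        intro p hp
        rw [mem_Icc]
        exact ⟨(Nat.prime_of_mem_primeFactors hp).one_le, Nat.le_of_mem_primeFactors hp⟩
      have := card_le_card h7
      rwa [Nat.card_Icc, Nat.add_sub_cancel] at this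
    have h8 : m.primeFactors.card ≤ 2 * N ^ 2 + 1 := by
      refine h6.trans (hm.2.trans ?_)
      have := Nat.pow_le_pow_left hnN 2
      omega
    refine ⟨hm.1, ?_, 1, m, (one_mul m).symm, ?_, h8.trans (le_max_right _ _)⟩
    · have h7 : (m.primeFactors.card : ℝ) ≤ 2 * (N : ℝ) ^ 2 + 1 := by exact_mod_cast h8
      have h8 : 2 * (N : ℝ) ^ 2 + 1 ≤ C * log (log 5) := by
        rw [← div_le_iff₀ h5]
        exact le_max_right _ _
      have h9 := hmono 5 n le_rfl hn
      have h10 : C * log (log 5) ≤ C * log (log n) :=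
        mul_le_mul_of_nonneg_left (by exact_mod_cast h9) (by linarith)
      linarith
    · push_cast
      apply one_le_rpow _ hε.le
      have : (5 : ℝ) ≤ n := by exact_mod_cast hn
      linarith
  intro n hn
  by_cases hnN : n ≤ N
  · exact hsmall n hn hnN
  · push Not at hnN
    induction n, hnN.le using Nat.le_induction with
    | base => exact hsmall N hn le_rfl
    | succ n hNn ih =>
      have hn5 : 5 ≤ n := by omega
      have hn0 : (0 : ℝ) ≤ n := Nat.cast_nonneg n
      have hprev : HasCircular n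
          (fun m => Squarefree m ∧ (m.primeFactors.card : ℝ) ≤ C * log (log n) ∧
            ∃ u w : ℕ, m = u * w ∧ (u : ℝ) ≤ (n : ℝ) ^ ε ∧ w.primeFactors.card ≤ r) := by
        rcases Nat.lt_or_ge N n with h6 | h6
        · exact ih hn5 h6
        · exact hsmall n hn5 h6
      have hprev' : HasCircular (n) (fun m => Squarefree m ∧
          (m.primeFactors.card : ℝ) ≤ C * log (log ((n + 1 : ℕ) : ℝ)) ∧
            ∃ u w : ℕ, m = u * w ∧ (u : ℝ) ≤ ((n + 1 : ℕ) : ℝ) ^ ε ∧
              w.primeFactors.card ≤ r) := by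
        refine hprev.mono fun m hm => ⟨hm.1, hm.2.1.trans ?_, ?_⟩
        · exact mul_le_mul_of_nonneg_left (hmono n (n + 1) hn5 (by omega)) (by linarith)
        · obtain ⟨u, w, h1, h2, h3⟩ := hm.2.2
          refine ⟨u, w, h1, h2.trans ?_, h3⟩
          apply rpow_le_rpow hn0 _ hε.le
          push_cast
          linarith
      refine insert_step n (by omega) _ hprev' ?_
      have h6 := hN (n + 1) (by omega) C hC240
      have h7 : ((n + 1 : ℕ) : ℝ) - 1 = (n : ℝ) := by push_cast; ring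
      rw [h7, Nat.add_sub_cancel] at h6
      have h8 : (Icc 1 n).filter (fun k => Squarefree (2 * k * (n + 1) + 1) ∧
          ((2 * k * (n + 1) + 1).primeFactors.card : ℝ) ≤ C * log (log ((n + 1 : ℕ) : ℝ)) ∧
          ∃ u w : ℕ, 2 * k * (n + 1) + 1 = u * w ∧
            (u : ℝ) ≤ ((n + 1 : ℕ) : ℝ) ^ (min ε 1) ∧ w.primeFactors.card ≤ r0) ⊆
          (Icc 1 n).filter (fun k => Squarefree (2 * k * (n + 1) + 1) ∧
          ((2 * k * (n + 1) + 1).primeFactors.card : ℝ) ≤ C * log (log ((n + 1 : ℕ) : ℝ)) ∧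
          ∃ u w : ℕ, 2 * k * (n + 1) + 1 = u * w ∧
            (u : ℝ) ≤ ((n + 1 : ℕ) : ℝ) ^ ε ∧ w.primeFactors.card ≤ r) := by
        intro k hk
        rw [mem_filter] at hk ⊢
        obtain ⟨hk1, hk2, hk3, u, w, h1, h2, h3⟩ := hk
        refine ⟨hk1, hk2, hk3, u, w, h1, h2.trans ?_, h3.trans (le_max_left _ _)⟩
        apply rpow_le_rpow_of_exponent_le _ (min_le_left _ _)
        push_cast
        linarith
      have h9 := card_le_card h8
      have h10 : (n : ℝ) < ((2 * ((Icc 1 n).filter (fun k =>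
          Squarefree (2 * k * (n + 1) + 1) ∧
          ((2 * k * (n + 1) + 1).primeFactors.card : ℝ) ≤ C * log (log ((n + 1 : ℕ) : ℝ)) ∧
          ∃ u w : ℕ, 2 * k * (n + 1) + 1 = u * w ∧
            (u : ℝ) ≤ ((n + 1 : ℕ) : ℝ) ^ (min ε 1) ∧
              w.primeFactors.card ≤ r0)).card : ℕ) : ℝ) := by
        push_cast at h6 ⊢
        exact h6
      have h11 := Nat.cast_lt.1 h10
      omega

end Pool.Agent.H34.CP
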